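import Pool.Agent.H885.UnifZW
import Pool.Agent.H885.AbsN
import Pool.Agent.H885.SymW
import Pool.Agent.H885.BaseN
import Pool.Agent.H885.UnifG
import Pool.Agent.H885.Cnt
import Pool.Agent.H885.Zh
import Pool.Agent.H885.FewR

/-!
# Zilber–Pink near degenerate fibres of all families: the sum of the codimensions of the special subvarieties

Let `V` be an open part of an affine space of **any dimension `m`** over `ℚ`, the complement of a divisor with normal crossings
near the point `0`, with a variation of (mixed) Hodge structures given by a family of varieties or 1-motives over `ℚ` with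
unipotent local monodromies; the fibre over `0` may be **degenerate**. The conjecture of Zilber and Pink predicts that
only few points of `V` are on special subvarieties of codimension larger than `m`. In rational bases of the canonical
extension the period matrix is `Ω_j x_1^(R_{j1}) ⋯ x_m^(R_{jm}) Z_j(x)`; the `R_{ji}` are the residues, commuting nilpotent
matrices (they can be made integral), `Z_j` is a matrix of G-functions over `ℚ` in `m` variables, and `Ω_j` is the period matrix of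
the limit mixed Hodge structure. In the direction `a_j ∈ ℤ^m` one has `P_j(a_j u) = C_j u^(R_j) Z_j(a_j u)`, where
`R_j = ∑_i R_{ji}` and `C_j = Ω_j ∏_i a_{ji}^(R_{ji})` is the period matrix of the limit at the tangential base point `a_j`. At the
rational points `a_j / b_j` the period matrix of the mixed Hodge structure `V_j` is
`P_j = C_j exp (-log(b_j) R_j) Z_j(a_j / b_j)`. We consider **all** families of bounded degree and height (all `V`), all rational
points `a_j / b_j` near `0` and all numbers `N` of points, and the special subvarieties of the product through the tuple of the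
points, relative to another mixed Hodge structure `V_0` with the period matrix `C₀`.

**Theorem.** Fix `m, n, N, r₀, M, q, s, ℓ, e` and the Hodge numbers `lev₀, lev_j`. There is `E` with the following property
for all complex numbers `β_1, …, β_s`, all `H, h, w` and all `b₀ ≥ (2 H (h + w + 2))^E`. We consider (`Fibres.Valid`)

* **all** tuples `b_1, …, b_N` of denominators in the window `[b₀, b₀ + w]`, at most `M` of them different, such that the
  distances of different `b_j` are larger than `2^(m+1) H (h + 2)`,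
* **all** families, that is, all commuting nilpotent integral `R_{ji}` and all `n × n` systems
  `T (x_i ∂Z_j / ∂x_i + R_{ji} Z_j) = Z_j A_{ji}` of degree at most `q`, for which the height of the system and the growth
  constants of the coefficients and of the denominators of `Z_j` and `Z_j⁻¹` are at most `H`,
* **all** numerators `a_j ∈ ℤ^m` with `|a_j| ≤ h`, such that the line `ℚ a_j` is not contained in the polar locus `T = 0`,
* **all** numbers `γ_1, …, γ_ℓ` and **all** limits such that, up to a common factor `κ`, the periods (entries of the `C_j` and of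
  `C₀`) are algebraic of degree at most `e` over `ℚ(β_1, …, β_s, γ_1, …, γ_ℓ)`, and the period matrices are invertible,
* any space `𝔤` of tuples `(X_1, …, X_N)` of matrices, stable under the conjugation by `exp (λ R_j)` (`Fibres.twist`), such that,
  for each `c`, the tuple of the `X_j` with `b_j = c` is an infinitesimal symmetry of the restrictions of the `Z_j` with
  `b_j = c` to the lines `ℚ a_j`. If the monodromy groups of the families on the lines are connected and perfect (for pure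
  variations they are semisimple: Deligne) then their Lie algebras are such spaces: `log x` is transcendental over the field
  generated by `x^R Z` over `ℂ(x)`, so a relation for `Z` gives relations for all `exp (-λ R) x^R Z`; for `𝔤` the product of
  these Lie algebras for the different denominators `C 𝔤 C⁻¹` is the Lie algebra of the (joint) monodromy group.

Then:

1. **The sum of the codimensions is at most `s + 1`:** for any number of tuples as above, of any families, the denominators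
   of which are at distance larger than `2^(m+1) H (h + 2)` for different tuples, there are `ρ_1, ρ_2, …` with
   `∑ ρ_l ≤ s + 1` such that **the codimension of the smallest special subvariety (relative to `V_0`) through the tuple of points
   with number `l` is at most `ρ_l + ℓ`**, and the tuple is jointly Hodge generic (relative to `V_0`) outside of a set `S` of
   points with `∑_{j ∈ S} c_j ≤ ρ_l + ℓ` where `c_j ≥ 1` is the smallest codimension of a proper special subvariety of `X_j`.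
2. **Few exceptional denominators:** for each `r ≥ ℓ` there is a set `F` of at most `M ⌊(s + 1) / (r + 1 - ℓ)⌋` denominators such
   that for **all** tuples of points as above whose denominators are at distance larger than `2^(m+1) H (h + 2)` from the
   elements of `F` the codimension is at most `r` (and `∑_{j ∈ S} c_j ≤ r`). The set `F` depends on `β_1, …, β_s` and on the
   window only, not on the families, the limits, the points or `V_0`.
3. **Without windows:** there is `k`, which depends only on `m, n, N, r₀, q, s, ℓ, e, lev₀, lev`, such that for all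
   `β_1, …, β_s`, `H` and `h` the number of the integers `b ≤ B` which are the denominators of some tuple of points `a_j / b` as
   above, of any families, for which this is not true with `r = ℓ`, is `O(B^(1 - 1/k))`.

So if `ℓ ≤ m` then there are at most `M ⌊(s + 1) / (m + 1 - ℓ)⌋` denominators in each window (up to their neighbours) for which
there are atypical points `a / b` on any of the `V`; and if `s + ℓ < m` then there are none, as predicted by the conjecture. An
atypical subvariety of dimension `d` through one of the other points has `d > m - r`, so for `r = 1` there are no atypical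
subvarieties of any dimension through these points. For example let the limit be (up to isogeny) a direct sum of Tate structures, as for
the maximal degenerations of abelian varieties for which the leading coefficients of the multiplicative periods in the
directions `a_j` are roots of unity: then the `C_j` are defined over `ℚ(2 π i)`, so `s = 1, ℓ = 0`, and the codimension is at
most `2` for **all** rational points of **all** these `V` (of all dimensions `m`), without any exceptions, if the denominators are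
large, and at most `1` except for `M` denominators in each window.

For `s = 0` the library theorem `MixedAllDirections` (MP_defd1c_ag) contains the first part for one fixed family and one fixed
limit, the points of a tuple having a common denominator, and `MixedIntegralPoints` (MP_eeb1a4_ag) is for tuples in one window of one
curve and a fixed limit. Our `SumOfCodimensions` (MP_defd1c_ag) is the analogous theorem with `s` instead of `s + 1` for
families which are **not** degenerate over `0`, without part 3. New here are the uniformity near degenerate fibres (all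
families of bounded degree over bases of any dimension, all limits with periods in a given field and all tuples of rational
points at once), the bound `∑ ρ_l ≤ s + 1` for points on **different** varieties with different constants `γ_l`, the bound for the
number of exceptional denominators, with a set which does not depend on the families, and part 3.
`FewCMFibresNearDegenerate` (MP_2794d1_ag) is about CM points and tensors of bounded degree only.

**Hodge theory.** The columns `b` of the period matrix `P_j` with `lev_j b ≥ p` span `F^p` of `V_j` in a Betti basis (`hodge`). A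
Hodge operator `φ_j` acts by `p` on `V^(p, q)` for a splitting of the Hodge and weight filtrations, for example Deligne's
splitting; it is in the Lie algebra of the Mumford–Tate group. If `𝔥` is the Lie algebra of the Mumford–Tate group of
`V_0 ⊕ V_1 ⊕ … ⊕ V_N` and `𝔪` the Lie algebra of the joint monodromy group then `dim 𝔪^- - dim (𝔪^- ∩ 𝔥)` is the codimension of the
smallest special subvariety (relative to `V_0`) which contains the tuple, because `𝔪^-`, the part of negative degree, is the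
tangent space of the orbit of the monodromy group in the period domain, and the quotient modulo `𝔪` is constant.
`CodimensionAtMost` bounds this number for all `𝔪` in `C 𝔤 C⁻¹` and all rational Lie algebras `𝔥` which contain the Hodge
operator. `IsMonodromy` collects the facts on the Lie algebra `𝔪_j` of the connected monodromy group of one family: it is
rational, respects the weights, is normalised by `φ_j`, `φ_j` is constant modulo `𝔪_j` (theorem of the fixed part, André
1992), and it has no rational quotients with trivial Hodge structure. That the period matrices have this form, the facts on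
the monodromy groups and the translation into special subvarieties are from the literature and not part of the Lean theorem.

Proof (`Pool/Agent/H885`). (i) A linear independence theorem for values of G-functions at `1 / t` in which all constants are
explicit powers of the height of the system, with Galochkin's condition for `x^R Z` (`GN`). (ii) Twisted shifts (`EPm`, `TwS`,
`CurTw`): for a common `t₀ > b_j` the matrices `z_j = exp (-log(b_j / t₀) R_j) Z_j(1 / b_j)` are values of G-functions at `1 / t₀`, so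
that only one further number `log t₀` is needed for all points of the window: `P_j = C_j exp (-log(t₀) R_j) z_j`. (iii) The
ultraproduct of a sequence of counterexamples has, for each of the separated tuples and each symmetry `X ∈ 𝔤`, a derivation of
`*ℂ` over `*ℚ` which moves the `z_j` at this tuple by `X` and kills those at all other tuples (`derW`). (iv) By linear algebra the
derivations which kill the `β_i`, `log t₀` and the `γ_i` act on the `z_j` at the tuple `l` by a space of matrices in `𝔤` of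
codimension at most `ρ_l + ℓ`, `∑ ρ_l ≤ s + 1` (`pigeonS`, `coreZ`). A derivation which kills the `C_j exp (-log(t₀) R_j)` up to a
common factor and moves the period matrix `P` to `(c + A) P` maps a special subvariety to itself up to the stabiliser of the
Hodge filtration, so `A ∈ 𝔥 + Stab F` (the criterion of `Helper880_ZP`, `compat_A`); so the codimension of
`C 𝔤 C⁻¹ ∩ (𝔥 + Stab F)` in `C 𝔤 C⁻¹` is at most `ρ_l + ℓ` (`ZW.absZ`, `ZW.uniformZW`; the space `C exp (-log(t₀) R) 𝔤 exp (log(t₀) R) C⁻¹`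
is `C 𝔤 C⁻¹`: `conj_twist`), and the same for the parts of negative degree (`joint_codT`). A maximal set of independent points
gives `S` (`LHT_most`, `killT`).
-/

set_option autoImplicit false

open PowerSeries Filter
open scoped Matrix

namespace Pool.Agent.Results.MP_eeb1a4_ag.CodimensionsNearDegenerate

section several
variable {n m N : ℕ}

/-- an integer polynomial in `m` variables as a power series with rational coefficients -/
noncomputable def toQ (P : MvPolynomial (Fin m) ℤ) : MvPowerSeries (Fin m) ℚ :=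
  ((P.map (Int.castRingHom ℚ) : MvPolynomial (Fin m) ℚ) : MvPowerSeries (Fin m) ℚ)

/-- the partial derivative `∂f / ∂x_i` -/
noncomputable def partialD (i : Fin m) (f : MvPowerSeries (Fin m) ℚ) : MvPowerSeries (Fin m) ℚ :=
  fun ν => ((ν i : ℚ) + 1) * MvPowerSeries.coeff (ν + Finsupp.single i 1) f

/-- `Z` is an invertible `n × n` matrix of G-functions in `m` variables with rational coefficients, `W = Z⁻¹`, `R_1, …, R_m`
are commuting nilpotent integral matrices, and `x_1^(R_1) ⋯ x_m^(R_m) Z` solves a system with logarithmic poles, that is,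
`T (x_i ∂Z / ∂x_i + R_i Z) = Z A_i`, `i = 1, …, m`. The degrees of `T` and `A_i` are at most `q`; the absolute values of their
coefficients and of the entries of the `R_i` and the growth of the coefficients of `Z` and of the denominators of the
coefficients of `Z` and `W` are bounded by `H`. -/
structure Family (q : ℕ) (H : ℝ) (T : MvPolynomial (Fin m) ℤ) (A : Fin m → Fin n → Fin n → MvPolynomial (Fin m) ℤ)
    (R : Fin m → Matrix (Fin n) (Fin n) ℤ) (Z W : Matrix (Fin n) (Fin n) (MvPowerSeries (Fin m) ℚ)) : Prop where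
  /-- the degree of `T` -/
  degT : T.totalDegree ≤ q
  /-- the height of `T` -/
  sizeT : ∀ ν, |((T.coeff ν : ℤ) : ℝ)| ≤ H
  /-- the degrees of the `A_i` -/
  degA : ∀ i a b, (A i a b).totalDegree ≤ q
  /-- the heights of the `A_i` -/
  sizeA : ∀ i a b ν, |(((A i a b).coeff ν : ℤ) : ℝ)| ≤ H
  /-- the residues commute -/
  comm : ∀ i i', R i * R i' = R i' * R i
  /-- the residues are nilpotent -/
  nil : ∀ i, R i ^ n = 0
  /-- the size of the residues -/
  sizeR : ∀ i a b, |((R i a b : ℤ) : ℝ)| ≤ H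
  /-- the differential equations -/
  ode : ∀ i a b, toQ T * (MvPowerSeries.X i * partialD i (Z a b) + ∑ c, MvPowerSeries.C (R i a c : ℚ) * Z c b) =
    ∑ l, Z a l * toQ (A i l b)
  /-- `W` is the inverse of `Z` -/
  inv : W * Z = 1
  /-- the growth of the coefficients -/
  size : ∀ a b (ν : Fin m →₀ ℕ), |((MvPowerSeries.coeff ν (Z a b) : ℚ) : ℝ)| ≤ H ^ (∑ i, ν i + 1)
  /-- the growth of the common denominators of the coefficients -/
  den : ∀ k : ℕ, ∃ d : ℕ, 0 < d ∧ (d : ℝ) ≤ H ^ (k + 1) ∧ ∀ a b (ν : Fin m →₀ ℕ), ∑ i, ν i ≤ k →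
    (∃ z : ℤ, (d : ℚ) * MvPowerSeries.coeff ν (Z a b) = z) ∧ ∃ z : ℤ, (d : ℚ) * MvPowerSeries.coeff ν (W a b) = z

/-- the matrix `R_1 + … + R_m`, the residue of the restriction to a line through `0`, over `ℂ` -/
noncomputable def residue (R : Fin m → Matrix (Fin n) (Fin n) ℤ) : Matrix (Fin n) (Fin n) ℂ :=
  (∑ i, R i).map (Int.castRingHom ℂ)

/-- the power series `f(x a)` in the variable `x`, the restriction of `f` to the line through `0` with direction `a` -/
noncomputable def restrict (a : Fin m → ℤ) (f : MvPowerSeries (Fin m) ℚ) : PowerSeries ℚ :=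
  PowerSeries.mk fun k => ∑ ν ∈ (Finset.univ : Finset (Fin m)).finsuppAntidiag k,
    MvPowerSeries.coeff ν f * ∏ i, (a i : ℚ) ^ ν i

/-- the value `Z(a / b)`, that is, the value of the restriction of `Z` to the line at `x = 1 / b` -/
noncomputable def value (Z : Matrix (Fin n) (Fin n) (MvPowerSeries (Fin m) ℚ)) (a : Fin m → ℤ) (b : ℕ) :
    Matrix (Fin n) (Fin n) ℂ :=
  Matrix.of fun i j => ((∑' k : ℕ, ((coeff k (restrict a (Z i j)) : ℚ) : ℝ) * (1 / (b : ℝ)) ^ k : ℝ) : ℂ)

/-- the matrix `u^(R_1 + … + R_m) Z(a u)` at `u = 1 / b`, that is, `exp (-log(b) (R_1 + … + R_m)) Z(a / b)` -/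
noncomputable def solution (R : Fin m → Matrix (Fin n) (Fin n) ℤ) (Z : Matrix (Fin n) (Fin n) (MvPowerSeries (Fin m) ℚ))
    (a : Fin m → ℤ) (b : ℕ) : Matrix (Fin n) (Fin n) ℂ :=
  NormedSpace.exp (-((Real.log b : ℂ) • residue R)) * value Z a b

/-- the restriction of `Z` to the line with direction `a`, over `ℂ` -/
noncomputable def onLine (a : Fin m → ℤ) (Z : Matrix (Fin n) (Fin n) (MvPowerSeries (Fin m) ℚ)) :
    Matrix (Fin n) (Fin n) (PowerSeries ℂ) :=
  Z.map fun f => PowerSeries.map (algebraMap ℚ ℂ) (restrict a f)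

/-- `(X_1, …, X_N)` is an infinitesimal symmetry of the matrices `Y_1, …, Y_N` of power series: for all polynomial relations
`R(x, Y_1(x), …, Y_N(x)) = 0` over `ℂ[x]` the derivative of `R(x, (1 + ε X_1) Y_1(x), …, (1 + ε X_N) Y_N(x))` at `ε = 0` is
zero. -/
def Symmetry (Y : Fin N → Matrix (Fin n) (Fin n) (PowerSeries ℂ)) (X : Fin N → Matrix (Fin n) (Fin n) ℂ) : Prop :=
  ∀ R : MvPolynomial (Fin N × Fin n × Fin n) (Polynomial ℂ),
    MvPolynomial.aeval (fun σ => Y σ.1 σ.2.1 σ.2.2) R = 0 →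
    ∑ σ, MvPolynomial.aeval (fun σ => Y σ.1 σ.2.1 σ.2.2) (MvPolynomial.pderiv σ R) *
      ((X σ.1).map (PowerSeries.C (R := ℂ)) * Y σ.1) σ.2.1 σ.2.2 = 0

end several

/-- `y` satisfies an equation `P(ξ, y) = 0` where `P` has rational coefficients and total degree at most `e` and `P(ξ, Y)` is
not the zero polynomial. All algebraic numbers of degree at most `e` and all polynomials of degree at most `e` in the `ξ_i` with
rational coefficients have this property. -/
def AlgebraicOver (e : ℕ) {u : ℕ} (ξ : Fin u → ℂ) (y : ℂ) : Prop :=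
  ∃ P : MvPolynomial (Option (Fin u)) ℚ, P.totalDegree ≤ e ∧ MvPolynomial.aeval (fun o : Option (Fin u) => o.elim y ξ) P = 0 ∧
    ∃ y' : ℂ, MvPolynomial.aeval (fun o : Option (Fin u) => o.elim y' ξ) P ≠ 0

/-- numbers which are algebraic over `ℚ(ξ_1, …, ξ_u)` are algebraic of bounded degree -/
theorem algebraicOver_of_isAlgebraic {u : ℕ} {ξ : Fin u → ℂ} {y : ℂ}
    (h : IsAlgebraic (IntermediateField.adjoin ℚ (Set.range ξ)) y) : ∃ e, AlgebraicOver e ξ y :=
  Pool.Agent.H885.algD_of_alg h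

/-- the distance of `b` and `c` is larger than `2^(m+1) H (h + 2)` -/
def Far (m : ℕ) (H : ℝ) (h b c : ℕ) : Prop := 2 ^ (m + 1) * H * ((h : ℝ) + 2) < |(b : ℝ) - c|

section hodge
variable {B : Type} [Fintype B] [DecidableEq B]

/-- The Hodge filtration `F^p`: it is spanned by the columns `b` of the period matrix with `p ≤ lev b`. -/
def hodge (lev : B → ℤ) (P : Matrix B B ℂ) (p : ℤ) : Submodule ℂ (B → ℂ) :=
  Submodule.span ℂ {v | ∃ b, p ≤ lev b ∧ v = fun i => P i b}

/-- `φ` splits the Hodge filtration: `F^p` is the sum of the eigenspaces of `φ` for the integral eigenvalues `q ≥ p`. -/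
def Splits (lev : B → ℤ) (P φ : Matrix B B ℂ) : Prop :=
  ∀ p, hodge lev P p = Submodule.span ℂ {v | ∃ q : ℤ, p ≤ q ∧ φ *ᵥ v = (q : ℂ) • v}

end hodge

section
variable {n N r₀ : ℕ}

/-- the block matrix `x ⊕ X_1 ⊕ … ⊕ X_N` -/
def total (x : Matrix (Fin r₀) (Fin r₀) ℂ) (X : Fin N → Matrix (Fin n) (Fin n) ℂ) :
    Matrix (Fin r₀ ⊕ (Fin n × Fin N)) (Fin r₀ ⊕ (Fin n × Fin N)) ℂ :=
  Matrix.fromBlocks x 0 0 (Matrix.blockDiagonal X)

/-- the tuples of the matrices `C_j X_j C_j⁻¹` with `X ∈ 𝔤` -/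
def conjugate (C : Fin N → Matrix (Fin n) (Fin n) ℂ) (𝔤 : Submodule ℂ (Fin N → Matrix (Fin n) (Fin n) ℂ)) :
    Submodule ℂ (Fin N → Matrix (Fin n) (Fin n) ℂ) where
  carrier := {Y | ∃ X ∈ 𝔤, ∀ j, Y j = C j * X j * (C j)⁻¹}
  zero_mem' := ⟨0, 𝔤.zero_mem, fun j => by rw [Pi.zero_apply, Matrix.mul_zero, Matrix.zero_mul]⟩
  add_mem' := by
    rintro Y Y' ⟨X, hX, h⟩ ⟨X', hX', h'⟩
    refine ⟨X + X', 𝔤.add_mem hX hX', fun j => ?_⟩
    rw [Pi.add_apply, Pi.add_apply, Matrix.mul_add, Matrix.add_mul, h, h']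
  smul_mem' := by
    rintro c Y ⟨X, hX, h⟩
    refine ⟨c • X, 𝔤.smul_mem c hX, fun j => ?_⟩
    rw [Pi.smul_apply, Pi.smul_apply, Matrix.mul_smul, Matrix.smul_mul, h]

end

section lie
variable {B : Type}

/-- the space is spanned by rational matrices -/
def IsRational (W : Submodule ℂ (Matrix B B ℂ)) : Prop :=
  W ≤ Submodule.span ℂ {X | X ∈ W ∧ ∀ a b, ∃ q : ℚ, X a b = q}

/-- the space is spanned by rational vectors -/
def IsRationalSpace (U : Submodule ℂ (B → ℂ)) : Prop := U ≤ Submodule.span ℂ {v | v ∈ U ∧ ∀ a, ∃ q : ℚ, v a = q}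

variable [Fintype B]

/-- the space is a Lie algebra -/
def IsLie (W : Submodule ℂ (Matrix B B ℂ)) : Prop := ∀ X ∈ W, ∀ Y ∈ W, X * Y - Y * X ∈ W

/-- `φ` normalises `𝔪` -/
def Normalises (φ : Matrix B B ℂ) (𝔪 : Submodule ℂ (Matrix B B ℂ)) : Prop := ∀ Y ∈ 𝔪, φ * Y - Y * φ ∈ 𝔪

/-- the space which is spanned by the elements `X` of `𝔪` such that `[φ, X] = a X` with a negative integer `a` -/
def negative (𝔪 : Submodule ℂ (Matrix B B ℂ)) (φ : Matrix B B ℂ) : Submodule ℂ (Matrix B B ℂ) :=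
  Submodule.span ℂ {X | X ∈ 𝔪 ∧ ∃ a : ℤ, a < 0 ∧ φ * X - X * φ = (a : ℂ) • X}

end lie

section mixed
variable {n r₀ : ℕ}

/-- `W` is the weight filtration of a rational mixed Hodge structure and `φ` is an operator which splits the weight filtration
and the Hodge filtration, for example the operator of Deligne's splitting: the filtration `W` is finite and rational, it is
stable under `φ`, and `φ + conj φ` is the multiplication by `k` on `W_k / W_(k-1)`. -/
structure IsMixed (W : ℤ → Submodule ℂ (Fin n → ℂ)) (φ : Matrix (Fin n) (Fin n) ℂ) : Prop where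
  /-- increasing -/
  mono : Monotone W
  /-- `0` for small `k` -/
  bot : ∃ k, W k = ⊥
  /-- everything for large `k` -/
  top : ∃ k, W k = ⊤
  /-- rational -/
  rational : ∀ k, IsRationalSpace (W k)
  /-- stable -/
  stable : ∀ k, ∀ v ∈ W k, φ *ᵥ v ∈ W k
  /-- Hodge symmetry -/
  symmetric : ∀ k, ∀ v ∈ W k, φ *ᵥ v + φ.map star *ᵥ v - (k : ℂ) • v ∈ W (k - 1)

/-- no rational ideal `𝔦 ≠ 𝔪` of `𝔪` contains `[φ, 𝔪]`: the Hodge operator is not trivial on the quotients of `𝔪` -/
def NoTrivialQuotient (𝔪 : Submodule ℂ (Matrix (Fin n) (Fin n) ℂ)) (φ : Matrix (Fin n) (Fin n) ℂ) : Prop :=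
  ∀ 𝔦 : Submodule ℂ (Matrix (Fin n) (Fin n) ℂ), 𝔦 ≤ 𝔪 → IsRational 𝔦 → (∀ X ∈ 𝔪, ∀ Y ∈ 𝔦, X * Y - Y * X ∈ 𝔦) →
    (∀ X ∈ 𝔪, φ * X - X * φ ∈ 𝔦) → 𝔦 = 𝔪

/-- `𝔪` is a rational Lie algebra which respects the weight filtration `W` and is normalised by the Hodge operator `φ`
of the mixed Hodge structure, and `φ` is in `φc + 𝔪`. -/
structure IsMonodromy (𝔪 : Submodule ℂ (Matrix (Fin n) (Fin n) ℂ)) (W : ℤ → Submodule ℂ (Fin n → ℂ))
    (φc φ : Matrix (Fin n) (Fin n) ℂ) : Prop where
  /-- rational -/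
  rational : IsRational 𝔪
  /-- Lie algebra -/
  lie : IsLie 𝔪
  /-- it respects the weights -/
  weight : ∀ X ∈ 𝔪, ∀ k, ∀ v ∈ W k, X *ᵥ v ∈ W k
  /-- mixed Hodge structure -/
  mixed : IsMixed W φ
  /-- normalised by `φ` -/
  normal : Normalises φ 𝔪
  /-- no trivial quotients -/
  nontrivial : NoTrivialQuotient 𝔪 φ
  /-- the variation is constant modulo `𝔪` -/
  constant : φ - φc ∈ 𝔪

/-- For all rational Lie algebras `𝔫` in `𝔪`, `𝔫 ≠ 𝔪`, which are normalised by `φ` the codimension of `𝔫 ∩ 𝔪^-` in `𝔪^-` is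
at least `c`. -/
def Codimension (c : ℕ) (𝔪 : Submodule ℂ (Matrix (Fin n) (Fin n) ℂ)) (φ : Matrix (Fin n) (Fin n) ℂ) : Prop :=
  ∀ 𝔫 : Submodule ℂ (Matrix (Fin n) (Fin n) ℂ), 𝔫 ≤ 𝔪 → IsRational 𝔫 → IsLie 𝔫 → Normalises φ 𝔫 → 𝔫 ≠ 𝔪 →
    Module.finrank ℂ (negative 𝔪 φ ⊓ 𝔫 : Submodule ℂ (Matrix (Fin n) (Fin n) ℂ)) + c ≤ Module.finrank ℂ (negative 𝔪 φ)

end mixed

section product
variable {n N r₀ : ℕ}

/-- the part of negative degree: the space which is spanned by the tuples `X` in `𝔪` such that `[φ_j, X_j] = a X_j` for all `j` with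
a negative integer `a` -/
def negatives (𝔪 : Submodule ℂ (Fin N → Matrix (Fin n) (Fin n) ℂ)) (φ : Fin N → Matrix (Fin n) (Fin n) ℂ) :
    Submodule ℂ (Fin N → Matrix (Fin n) (Fin n) ℂ) :=
  Submodule.span ℂ {X | X ∈ 𝔪 ∧ ∃ a : ℤ, a < 0 ∧ ∀ j, φ j * X j - X j * φ j = (a : ℂ) • X j}

/-- the space of all `(X_1, …, X_N)` with `0 ⊕ X_1 ⊕ … ⊕ X_N ∈ 𝔥` -/
def inBlocks (𝔥 : Submodule ℂ (Matrix (Fin r₀ ⊕ (Fin n × Fin N)) (Fin r₀ ⊕ (Fin n × Fin N)) ℂ)) :
    Submodule ℂ (Fin N → Matrix (Fin n) (Fin n) ℂ) where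
  carrier := {X | total 0 X ∈ 𝔥}
  zero_mem' := by
    have h : total (0 : Matrix (Fin r₀) (Fin r₀) ℂ) (0 : Fin N → Matrix (Fin n) (Fin n) ℂ) = 0 :=
      Pool.Agent.Helper880_EX.Tot_zero
    show total 0 (0 : Fin N → Matrix (Fin n) (Fin n) ℂ) ∈ 𝔥
    rw [h]
    exact 𝔥.zero_mem
  add_mem' := by
    intro X Y hX hY
    have h : total (0 : Matrix (Fin r₀) (Fin r₀) ℂ) (X + Y) = total 0 X + total 0 Y := Pool.Agent.Helper880_EX.Tot_add _ _
    show total 0 (X + Y) ∈ 𝔥
    rw [h]
    exact 𝔥.add_mem hX hY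
  smul_mem' := by
    intro c X hX
    have h : total (0 : Matrix (Fin r₀) (Fin r₀) ℂ) (c • X) = c • total 0 X := Pool.Agent.Helper880_EX.Tot_smul _ _
    show total 0 (c • X) ∈ 𝔥
    rw [h]
    exact 𝔥.smul_mem _ hX

/-- The rational tensor `f` in `V_0^(⊗ d₀) ⊗ V_(τ 1) ⊗ … ⊗ V_(τ d)` is a Hodge tensor for the Hodge operators `φ₀` of `V_0` and
`φ_j` of `V_j`: it is an eigenvector of the Hodge operator on the tensor space, with an integral eigenvalue. -/
def IsHodge {d₀ d : ℕ} (τ : Fin d → Fin N) (φ₀ : Matrix (Fin r₀) (Fin r₀) ℂ) (φ : Fin N → Matrix (Fin n) (Fin n) ℂ)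
    (f : (Fin d₀ → Fin r₀) → (Fin d → Fin n) → ℚ) : Prop :=
  ∃ q : ℤ, ∀ x y, (∑ k, ∑ a, φ₀ (x k) a * (f (Function.update x k a) y : ℂ)) +
    (∑ l, ∑ a, φ (τ l) (y l) a * (f x (Function.update y l a) : ℂ)) = q * (f x y : ℂ)

/-- The tensor `f` in `V_0^(⊗ d₀) ⊗ V_(τ 1) ⊗ … ⊗ V_(τ d)` is killed by `𝔪_j`, acting on the factors `V_j`, for all `j`. -/
def Invariant {d₀ d : ℕ} (τ : Fin d → Fin N) (𝔪 : Fin N → Submodule ℂ (Matrix (Fin n) (Fin n) ℂ))
    (f : (Fin d₀ → Fin r₀) → (Fin d → Fin n) → ℚ) : Prop :=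
  ∀ j, ∀ X ∈ 𝔪 j, ∀ x y, (∑ l, if τ l = j then ∑ a, X (y l) a * (f x (Function.update y l a) : ℂ) else 0) = 0

/-- The tuple of the points `x_j` with `j ∉ S` is Hodge generic, relative to `V_0`: the projection of each rational Lie algebra `𝔥`
which contains the Hodge operator `φ₀ ⊕ φ_1 ⊕ … ⊕ φ_N` (for example the Lie algebra of the Mumford–Tate group) to the
components outside of `S` contains the product of the `𝔪_j`, and the Hodge tensors in the spaces
`V_0^(⊗ d₀) ⊗ V_(τ 1) ⊗ … ⊗ V_(τ d)`, `τ l ∉ S`, are exactly the Hodge tensors for `φ₀` and `φc_j` which are killed by `𝔪_j`, acting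
on `V_j`, for all `j`. -/
def JointlyGeneric (φ₀ : Matrix (Fin r₀) (Fin r₀) ℂ) (φc φ : Fin N → Matrix (Fin n) (Fin n) ℂ)
    (𝔪 : Fin N → Submodule ℂ (Matrix (Fin n) (Fin n) ℂ)) (S : Finset (Fin N)) : Prop :=
  (∀ 𝔥 : Submodule ℂ (Matrix (Fin r₀ ⊕ (Fin n × Fin N)) (Fin r₀ ⊕ (Fin n × Fin N)) ℂ), IsRational 𝔥 → IsLie 𝔥 →
    total φ₀ φ ∈ 𝔥 → ∀ j ∉ S, ∀ X ∈ 𝔪 j, ∃ Y : Fin N → Matrix (Fin n) (Fin n) ℂ, (∀ i, Y i ∈ 𝔪 i) ∧ total 0 Y ∈ 𝔥 ∧ Y j = X ∧
      ∀ i ∉ S, i ≠ j → Y i = 0) ∧
  ∀ (d₀ d : ℕ) (τ : Fin d → Fin N) (f : (Fin d₀ → Fin r₀) → (Fin d → Fin n) → ℚ), (∀ l, τ l ∉ S) →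
    (IsHodge τ φ₀ φ f ↔ IsHodge τ φ₀ φc f ∧ Invariant τ 𝔪 f)

end product

/-- A tuple of `N` fibres: denominators `b_j` and numerators `a_j` of the points, systems `T_j, A_j, R_j`, their fundamental matrices
`Z_j` and `W_j = Z_j⁻¹`, the period matrices `C_j` of the limits and `C₀` of the mixed Hodge structure `V_0`, a factor
`κ` and `ℓ` further numbers `γ`, and a space `𝔤` of tuples of matrices, for instance the Lie algebra of the differential
Galois group of the restrictions of the systems to the lines through `0` and the points. -/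
structure Fibres (m n N r₀ ℓ : ℕ) where
  /-- the denominators of the points -/
  b : Fin N → ℕ
  /-- the numerators of the points -/
  a : Fin N → Fin m → ℤ
  /-- the denominators of the systems -/
  T : Fin N → MvPolynomial (Fin m) ℤ
  /-- the matrices of the systems -/
  A : Fin N → Fin m → Fin n → Fin n → MvPolynomial (Fin m) ℤ
  /-- the residues -/
  R : Fin N → Fin m → Matrix (Fin n) (Fin n) ℤ
  /-- the fundamental matrices -/
  Z : Fin N → Matrix (Fin n) (Fin n) (MvPowerSeries (Fin m) ℚ)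
  /-- their inverses -/
  W : Fin N → Matrix (Fin n) (Fin n) (MvPowerSeries (Fin m) ℚ)
  /-- further constants -/
  γ : Fin ℓ → ℂ
  /-- the common factor of the periods -/
  κ : ℂ
  /-- the periods of `V_0` -/
  C₀ : Matrix (Fin r₀) (Fin r₀) ℂ
  /-- the periods of the limits -/
  C : Fin N → Matrix (Fin n) (Fin n) ℂ
  /-- symmetries -/
  𝔤 : Submodule ℂ (Fin N → Matrix (Fin n) (Fin n) ℂ)

section fibres
variable {m n N r₀ ℓ s : ℕ}

/-- the period matrices `C_j exp (-log(b_j) R_j) Z_j(a_j / b_j)` of the fibres -/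
noncomputable def Fibres.periods (x : Fibres m n N r₀ ℓ) : Fin N → Matrix (Fin n) (Fin n) ℂ :=
  fun j => x.C j * solution (x.R j) (x.Z j) (x.a j) (x.b j)

/-- the conjugates `exp (λ R_j) X_j exp (-λ R_j)` -/
noncomputable def Fibres.twist (x : Fibres m n N r₀ ℓ) (lam : ℂ) (X : Fin N → Matrix (Fin n) (Fin n) ℂ) :
    Fin N → Matrix (Fin n) (Fin n) ℂ :=
  fun j => NormedSpace.exp (lam • residue (x.R j)) * X j * NormedSpace.exp (-(lam • residue (x.R j)))

/-- The conditions for a tuple of fibres, see the description of the theorem. -/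
structure Fibres.Valid (q M e : ℕ) (β : Fin s → ℂ) (H : ℝ) (h w b₀ : ℕ) (x : Fibres m n N r₀ ℓ) : Prop where
  /-- the denominators are in the window `[b₀, b₀ + w]` -/
  window : ∀ j, b₀ ≤ x.b j ∧ x.b j ≤ b₀ + w
  /-- they are equal or far from each other -/
  far : ∀ i j, x.b i = x.b j ∨ Far m H h (x.b i) (x.b j)
  /-- at most `M` of them are different -/
  different : (Finset.univ.image x.b).card ≤ M
  /-- the numerators are bounded by `h` -/
  numerators : ∀ j i, |x.a j i| ≤ h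
  /-- the systems have degree at most `q`, height and growth constants at most `H` -/
  family : ∀ j, Family q H (x.T j) (x.A j) (x.R j) (x.Z j) (x.W j)
  /-- the lines are not contained in the polar loci -/
  pole : ∀ j, restrict (x.a j) (toQ (x.T j)) ≠ 0
  /-- the factor is not zero -/
  factor : x.κ ≠ 0
  /-- the periods of `V_0` are algebraic over `ℚ(β, γ)`, up to the factor -/
  central₀ : ∀ i i', AlgebraicOver e (Fin.append β x.γ) (x.κ * x.C₀ i i')
  /-- the periods of the limits are algebraic over `ℚ(β, γ)`, up to the factor -/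
  central : ∀ j i i', AlgebraicOver e (Fin.append β x.γ) (x.κ * x.C j i i')
  /-- the period matrices are invertible -/
  invertible : IsUnit (total x.C₀ x.periods)
  /-- `𝔤` consists of infinitesimal symmetries, separately for each denominator `c` -/
  symmetries : ∀ X ∈ x.𝔤, ∀ c : ℕ,
    Symmetry (fun j => if x.b j = c then onLine (x.a j) (x.Z j) else 1) (fun j => if x.b j = c then X j else 0)
  /-- `𝔤` is stable under the conjugation by `exp (λ R)` -/
  stable : ∀ X ∈ x.𝔤, ∀ lam : ℂ, x.twist lam X ∈ x.𝔤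

/-- The codimension of all special subvarieties through the tuple of points is at most `r`: for all subspaces `𝔪` of
`C 𝔤 C⁻¹` (for example the Lie algebra of the monodromy group) and all rational Lie algebras `𝔥` which contain the Hodge
operator `φ₀ ⊕ φ_1 ⊕ … ⊕ φ_N` of `V_0 ⊕ V_1 ⊕ … ⊕ V_N` the codimension of `𝔪^- ∩ 𝔥` in `𝔪^-` is at most `r`. -/
def Fibres.CodimensionAtMost (lev₀ : Fin r₀ → ℤ) (lev : Fin N → Fin n → ℤ) (r : ℕ) (x : Fibres m n N r₀ ℓ) : Prop :=
  ∀ (φ₀ : Matrix (Fin r₀) (Fin r₀) ℂ) (φ : Fin N → Matrix (Fin n) (Fin n) ℂ)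
    (𝔪 : Submodule ℂ (Fin N → Matrix (Fin n) (Fin n) ℂ))
    (𝔥 : Submodule ℂ (Matrix (Fin r₀ ⊕ (Fin n × Fin N)) (Fin r₀ ⊕ (Fin n × Fin N)) ℂ)),
    Splits lev₀ x.C₀ φ₀ → (∀ j, Splits (lev j) (x.periods j) (φ j)) → 𝔪 ≤ conjugate x.C x.𝔤 → IsRational 𝔥 → IsLie 𝔥 →
    total φ₀ φ ∈ 𝔥 → Module.finrank ℂ (negatives 𝔪 φ) ≤
      Module.finrank ℂ (negatives 𝔪 φ ⊓ inBlocks 𝔥 : Submodule ℂ (Fin N → Matrix (Fin n) (Fin n) ℂ)) + r

/-- The tuple is Hodge generic outside of a set `S` with `∑_{j ∈ S} c_j ≤ r`: for all `𝔪_j` whose product is contained in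
`C 𝔤 C⁻¹`, all weight filtrations `W_j`, all `φ₀` and `φc_j`, and for all Hodge operators `φ_j` of mixed Hodge
structures which split the Hodge filtrations, if for all `j` we have `c_j ≤ 1` or all proper rational Lie algebras of `𝔪_j` have
codimension at least `c_j`. -/
def Fibres.MostlyGeneric (lev₀ : Fin r₀ → ℤ) (lev : Fin N → Fin n → ℤ) (r : ℕ) (x : Fibres m n N r₀ ℓ) : Prop :=
  ∀ (c : Fin N → ℕ) (𝔪 : Fin N → Submodule ℂ (Matrix (Fin n) (Fin n) ℂ)) (W : Fin N → ℤ → Submodule ℂ (Fin n → ℂ))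
    (φ₀ : Matrix (Fin r₀) (Fin r₀) ℂ) (φc φ : Fin N → Matrix (Fin n) (Fin n) ℂ), Splits lev₀ x.C₀ φ₀ →
    (∀ j, Splits (lev j) (x.periods j) (φ j)) → (∀ j, IsMonodromy (𝔪 j) (W j) (φc j) (φ j)) →
    (∀ X : Fin N → Matrix (Fin n) (Fin n) ℂ, (∀ j, X j ∈ 𝔪 j) → X ∈ conjugate x.C x.𝔤) →
    (∀ j, c j ≤ 1 ∨ Codimension (c j) (𝔪 j) (φ j)) →
      ∃ S : Finset (Fin N), ∑ j ∈ S, c j ≤ r ∧ JointlyGeneric φ₀ φc φ 𝔪 S

/-- the denominators of two tuples of fibres are far from each other -/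
def Separated (H : ℝ) (h : ℕ) (x y : Fibres m n N r₀ ℓ) : Prop := ∀ i j, Far m H h (x.b i) (y.b j)

/-- the denominators `b ≤ B` of the tuples of points `a_j / b` which satisfy the conditions (for the window `{b}`) but for which
the codimension of some special subvariety is larger than `ℓ` or the second conclusion with `r = ℓ` is not true -/
def exceptional (m n N r₀ ℓ : ℕ) (q e : ℕ) (lev₀ : Fin r₀ → ℤ) (lev : Fin N → Fin n → ℤ) (β : Fin s → ℂ) (H : ℝ) (h B : ℕ) :
    Set ℕ :=
  {b | b ≤ B ∧ ∃ x : Fibres m n N r₀ ℓ, x.Valid q 1 e β H h 0 b ∧ (∀ j, x.b j = b) ∧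
    ¬ (x.CodimensionAtMost lev₀ lev ℓ ∧ x.MostlyGeneric lev₀ lev ℓ)}

end fibres

/-! ## Proofs -/

theorem base_of {m n q : ℕ} {H : ℝ} (hH : 1 ≤ H) {T : MvPolynomial (Fin m) ℤ}
    {A : Fin m → Fin n → Fin n → MvPolynomial (Fin m) ℤ} {R : Fin m → Matrix (Fin n) (Fin n) ℤ}
    {Z W : Matrix (Fin n) (Fin n) (MvPowerSeries (Fin m) ℚ)}
    (h : Family q H T A R Z W) : Pool.Agent.H885.FamN q H T A R Z W :=
  ⟨hH, h.degT, h.sizeT, h.degA, h.sizeA, h.comm, h.nil, h.sizeR, h.ode, h.inv, h.size, h.den⟩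

/-- the solution in terms of the polynomials for the exponential function -/
theorem solution_eq {m n q : ℕ} {H : ℝ} {T : MvPolynomial (Fin m) ℤ}
    {A : Fin m → Fin n → Fin n → MvPolynomial (Fin m) ℤ} {R : Fin m → Matrix (Fin n) (Fin n) ℤ}
    {Z W : Matrix (Fin n) (Fin n) (MvPowerSeries (Fin m) ℚ)} (h : Family q H T A R Z W) (a : Fin m → ℤ) (b : ℕ) :
    solution R Z a b = Pool.Agent.H885.eP (∑ i, R i) (Complex.log (b : ℝ)) * value Z a b := by
  unfold solution residue
  rw [Pool.Agent.H885.eP_nexp (Pool.Agent.H885.sumR_nil h.comm h.nil), Complex.ofReal_log (by positivity)]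

theorem sym_cent {m n N : ℕ} (Z : Fin N → Matrix (Fin n) (Fin n) (MvPowerSeries (Fin m) ℚ)) (a : Fin N → Fin m → ℤ)
    (b : Fin N → ℕ) (β : ℕ) :
    Pool.Agent.H885.cent (Pool.Agent.H885.part b (fun j => Pool.Agent.H885.lineM (a j) (Z j)) β) =
      fun σ : Fin N × Fin n × Fin n => (if b σ.1 = β then onLine (a σ.1) (Z σ.1) else 1) σ.2.1 σ.2.2 := by
  funext σ
  unfold Pool.Agent.H885.cent Pool.Agent.H885.part
  by_cases hb : b σ.1 = β
  · rw [if_pos hb, if_pos hb]
    rfl
  · rw [if_neg hb, if_neg hb, Matrix.one_apply, Matrix.one_apply]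
    split_ifs
    · exact map_one _
    · exact map_zero _

theorem sym_inf {m n N : ℕ} {Z : Fin N → Matrix (Fin n) (Fin n) (MvPowerSeries (Fin m) ℚ)} {a : Fin N → Fin m → ℤ}
    {b : Fin N → ℕ} {β : ℕ} {X : Fin N → Matrix (Fin n) (Fin n) ℂ} :
    Symmetry (fun j => if b j = β then onLine (a j) (Z j) else 1) (fun j => if b j = β then X j else 0) ↔
    Pool.Agent.H885.InfT (Pool.Agent.H885.part b (fun j => Pool.Agent.H885.lineM (a j) (Z j)) β)
      (fun j => if b j = β then X j else 0) := by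
  have h1 := sym_cent Z a b β
  constructor
  · intro h R hR
    rw [h1] at hR ⊢
    refine Eq.trans ?_ (h R hR)
    refine Finset.sum_congr rfl fun σ _ => ?_
    rw [Matrix.mul_apply]
    rfl
  · intro h R hR
    have h2 := h R (by
      rw [h1]
      exact hR)
    rw [h1] at h2
    refine Eq.trans ?_ h2
    refine Finset.sum_congr rfl fun σ _ => ?_
    rw [Matrix.mul_apply]
    rfl

theorem far_symm {m : ℕ} {H : ℝ} {h b c : ℕ} (hbc : Far m H h b c) : Far m H h c b := by
  unfold Far at hbc ⊢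
  rw [abs_sub_comm]
  exact hbc

/-- the conjugates in terms of the polynomials for the exponential function -/
theorem twist_eq {m n N r₀ ℓ : ℕ} {x : Fibres m n N r₀ ℓ} (hR : ∀ j, (∑ i, x.R j i) ^ n = 0) (lam : ℂ)
    (X : Fin N → Matrix (Fin n) (Fin n) ℂ) (j : Fin N) :
    x.twist lam X j = Pool.Agent.H885.eP (∑ i, x.R j i) (-lam) * X j * Pool.Agent.H885.eP (∑ i, x.R j i) lam := by
  unfold Fibres.twist residue
  rw [Pool.Agent.H885.eP_nexp (hR j), Pool.Agent.H885.eP_nexp (hR j), neg_smul, neg_neg]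

/-- the conjugate space does not depend on the point of reference -/
theorem conj_twist {m n N r₀ ℓ : ℕ} {x : Fibres m n N r₀ ℓ} (hR : ∀ j, (∑ i, x.R j i) ^ n = 0)
    (hst : ∀ X ∈ x.𝔤, ∀ lam : ℂ, x.twist lam X ∈ x.𝔤) (lt : ℂ) :
    Pool.Agent.H885.conjT (fun j => x.C j * Pool.Agent.H885.eP (∑ i, x.R j i) lt) x.𝔤 =
      Pool.Agent.H885.conjT x.C x.𝔤 := by
  have hi1 : ∀ j, Pool.Agent.H885.eP (∑ i, x.R j i) (-lt) * Pool.Agent.H885.eP (∑ i, x.R j i) lt = 1 := fun j =>
    Pool.Agent.H885.eP_inv (hR j) lt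
  have hi2 : ∀ j, Pool.Agent.H885.eP (∑ i, x.R j i) lt * Pool.Agent.H885.eP (∑ i, x.R j i) (-lt) = 1 := fun j => by
    have h1 := Pool.Agent.H885.eP_inv (hR j) (-lt)
    rwa [neg_neg] at h1
  have hinv : ∀ j, (x.C j * Pool.Agent.H885.eP (∑ i, x.R j i) lt)⁻¹ = Pool.Agent.H885.eP (∑ i, x.R j i) (-lt) * (x.C j)⁻¹ :=
    fun j => by rw [Matrix.mul_inv_rev, Matrix.inv_eq_left_inv (hi1 j)]
  ext Y
  constructor
  · rintro ⟨X, hX, h⟩
    refine ⟨x.twist (-lt) X, hst X hX _, fun j => ?_⟩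
    rw [h j, hinv, twist_eq hR, neg_neg]
    simp only [Matrix.mul_assoc]
  · rintro ⟨X, hX, h⟩
    refine ⟨x.twist lt X, hst X hX _, fun j => ?_⟩
    rw [h j, hinv, twist_eq hR]
    have h1 : x.C j * Pool.Agent.H885.eP (∑ i, x.R j i) lt * (Pool.Agent.H885.eP (∑ i, x.R j i) (-lt) * X j *
        Pool.Agent.H885.eP (∑ i, x.R j i) lt) * (Pool.Agent.H885.eP (∑ i, x.R j i) (-lt) * (x.C j)⁻¹) =
        x.C j * (Pool.Agent.H885.eP (∑ i, x.R j i) lt * Pool.Agent.H885.eP (∑ i, x.R j i) (-lt)) * X j *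
          (Pool.Agent.H885.eP (∑ i, x.R j i) lt * Pool.Agent.H885.eP (∑ i, x.R j i) (-lt)) * (x.C j)⁻¹ := by
      simp only [Matrix.mul_assoc]
    rw [h1, hi2, Matrix.mul_one, Matrix.mul_one]

/-- the periods -/
theorem periods_eq {m n N r₀ ℓ q : ℕ} {H : ℝ} {x : Fibres m n N r₀ ℓ} (hF : ∀ j, Family q H (x.T j) (x.A j) (x.R j) (x.Z j) (x.W j))
    {t₀ : ℕ} (ht₀ : 0 < t₀) (hb : ∀ j, 0 < x.b j) (j : Fin N) :
    solution (x.R j) (x.Z j) (x.a j) (x.b j) = Pool.Agent.H885.eP (∑ i, x.R j i) (Complex.log (t₀ : ℝ)) *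
      Pool.Agent.H885.zT t₀ (∑ i, x.R j i) (Pool.Agent.H885.lineM (x.a j) (x.Z j)) (x.b j) := by
  rw [solution_eq (hF j)]
  unfold Pool.Agent.H885.zT
  have hb' : (0 : ℝ) < x.b j := by exact_mod_cast hb j
  have ht' : (0 : ℝ) < t₀ := by exact_mod_cast ht₀
  have h1 : Complex.log ((x.b j : ℝ) : ℂ) = Complex.log ((t₀ : ℝ) : ℂ) + Complex.log (((x.b j : ℝ) : ℂ) / ((t₀ : ℝ) : ℂ)) := by
    rw [← Complex.ofReal_div, ← Complex.ofReal_log hb'.le, ← Complex.ofReal_log ht'.le, ← Complex.ofReal_log (by positivity),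
      Real.log_div hb'.ne' ht'.ne']
    push_cast
    ring
  rw [h1, Pool.Agent.H885.eP_add (Pool.Agent.H885.sumR_nil (hF j).comm (hF j).nil), ← Matrix.mul_assoc]
  rfl

theorem rat_eq {B : Type} {W : Submodule ℂ (Matrix B B ℂ)} :
    IsRational W ↔ Pool.Agent.Helper880_ZP.DefOver Pool.Agent.Helper880_ZP.K₀ W := by
  have h : {X | X ∈ W ∧ ∀ a b, ∃ q : ℚ, X a b = q} = {X | X ∈ W ∧ ∀ a b, X a b ∈ Pool.Agent.Helper880_ZP.K₀} := by
    ext X
    simp only [Pool.Agent.Helper880_ZP.mem_K₀]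
  unfold IsRational Pool.Agent.Helper880_ZP.DefOver
  rw [h]
  exact ⟨fun h1 => le_antisymm h1 (Submodule.span_le.2 fun X hX => hX.1), fun h1 => h1.le⟩

theorem mxd_of {n : ℕ} {W : ℤ → Submodule ℂ (Fin n → ℂ)} {φ : Matrix (Fin n) (Fin n) ℂ} (h : IsMixed W φ) :
    Pool.Agent.Helper880_MX.Mxd W φ :=
  ⟨h.mono, h.bot, h.top, h.rational, h.stable, h.symmetric⟩

theorem ntq_of {n : ℕ} {𝔪 : Submodule ℂ (Matrix (Fin n) (Fin n) ℂ)} {φ : Matrix (Fin n) (Fin n) ℂ}
    (h : NoTrivialQuotient 𝔪 φ) : Pool.Agent.Helper880_MX.NTQ 𝔪 φ :=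
  fun 𝔦 h1 h2 h3 h4 => (h 𝔦 h1 (rat_eq.2 h2) h3 h4).ge

theorem hodge_eq {n N r₀ d₀ d : ℕ} {τ : Fin d → Fin N} {φ₀ : Matrix (Fin r₀) (Fin r₀) ℂ} {φ : Fin N → Matrix (Fin n) (Fin n) ℂ}
    {f : (Fin d₀ → Fin r₀) → (Fin d → Fin n) → ℚ} : IsHodge τ φ₀ φ f ↔
      ∃ q : ℤ, Pool.Agent.Helper880_HC.act τ φ₀ φ (Pool.Agent.Helper880_HC.tC f) = (q : ℂ) • Pool.Agent.Helper880_HC.tC f := by
  refine exists_congr fun q => ⟨fun h => ?_, fun h x y => ?_⟩
  · funext x y
    rw [Pool.Agent.Helper880_HC.act_apply]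
    exact h x y
  · have h1 := congrFun (congrFun h x) y
    rw [Pool.Agent.Helper880_HC.act_apply] at h1
    exact h1

theorem inv_eq {n N r₀ d₀ d : ℕ} {τ : Fin d → Fin N} {𝔪 : Fin N → Submodule ℂ (Matrix (Fin n) (Fin n) ℂ)}
    {f : (Fin d₀ → Fin r₀) → (Fin d → Fin n) → ℚ} : Invariant τ 𝔪 f ↔
      ∀ j, ∀ X ∈ 𝔪 j, Pool.Agent.Helper880_HC.one τ (Pool.Agent.Helper880_HC.tC f) j X = 0 := by
  refine forall_congr' fun j => forall_congr' fun X => forall_congr' fun _ => ⟨fun h => ?_, fun h x y => ?_⟩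
  · funext x y
    rw [Pool.Agent.Helper880_HC.one_sum]
    exact h x y
  · have h1 := congrFun (congrFun h x) y
    rw [Pool.Agent.Helper880_HC.one_sum] at h1
    exact h1

/-- from the bound for all rational Lie algebras to the two conclusions -/
theorem concl {m n N r₀ ℓ r : ℕ} {lev₀ : Fin r₀ → ℤ} {lev : Fin N → Fin n → ℤ} {x : Fibres m n N r₀ ℓ}
    (hu : IsUnit (total x.C₀ x.periods))
    (h : ∀ R : Submodule ℂ (Matrix (Fin r₀ ⊕ (Fin n × Fin N)) (Fin r₀ ⊕ (Fin n × Fin N)) ℂ),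
      Pool.Agent.Helper880_ZP.RelA (Pool.Agent.H885.LvT N lev₀ lev) (total x.C₀ x.periods) R →
      Module.finrank ℂ (Pool.Agent.H885.blT r₀ (Pool.Agent.H885.conjT x.C x.𝔤)) ≤
        Module.finrank ℂ (Pool.Agent.H885.blT r₀ (Pool.Agent.H885.conjT x.C x.𝔤) ⊓ R : Submodule ℂ _) + r) :
    x.CodimensionAtMost lev₀ lev r ∧ x.MostlyGeneric lev₀ lev r := by
  have hud := (Matrix.isUnit_iff_isUnit_det _).1 hu
  refine ⟨?_, ?_⟩
  · intro φ₀ φ 𝔪 𝔥 h0 hsp hm hr hL hφ
    obtain ⟨⟨V, hV, hVe⟩, hblk⟩ := Pool.Agent.H885.blkT hu h0 hsp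
    obtain ⟨hEig, hcj⟩ := Pool.Agent.Helper880_ZP.Eig.mk' hud hV hVe
    have hc1 := h _ ⟨hud, 𝔥, rat_eq.1 hr, hL, ⟨_, hφ, V, hV, hVe⟩, rfl⟩
    rw [← hcj] at hc1
    exact Pool.Agent.H885.joint_codT (𝔊 := Pool.Agent.H885.blT r₀ (Pool.Agent.H885.conjT x.C x.𝔤)) hEig hL hφ
      (fun Z hZ => ⟨Z, hm hZ, rfl⟩) hc1
  · intro c 𝔪 W φ₀ φc φ h0 hsp hmon hprod hc
    obtain ⟨⟨V, hV, hVe⟩, hblk⟩ := Pool.Agent.H885.blkT hu h0 hsp
    obtain ⟨hEig, hcj⟩ := Pool.Agent.Helper880_ZP.Eig.mk' hud hV hVe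
    have hL := fun j => (hmon j).lie
    have hr := fun j => rat_eq.1 (hmon j).rational
    set 𝔥₀ := Pool.Agent.Helper880_MX.mnL (total φ₀ φ) with h𝔥₀
    have hc1 := h _ ⟨hud, 𝔥₀, Pool.Agent.Helper880_MX.mnL_rat _, Pool.Agent.Helper880_MX.mnL_lie _,
      ⟨_, Pool.Agent.Helper880_MX.mnL_mem _, V, hV, hVe⟩, rfl⟩
    rw [← hcj] at hc1
    have hone : ∀ j, Pool.Agent.Helper880_EX.Cod 1 (𝔪 j) (φ j) := by
      intro j
      obtain ⟨R, hR⟩ := hblk j
      exact Pool.Agent.Helper880_MX.cod_one hR (mxd_of (hmon j).mixed) (hr j) (hL j) (hmon j).normal (hmon j).weight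
        (ntq_of (hmon j).nontrivial)
    have hcod : ∀ j, Pool.Agent.Helper880_EX.Cod (c j) (𝔪 j) (φ j) := by
      intro j
      rcases hc j with h1 | h1
      · intro 𝔫 k1 k2 k3 k4 k5
        exact (Nat.add_le_add_left h1 _).trans (hone j 𝔫 k1 k2 k3 k4 k5)
      · intro 𝔫 k1 k2 k3 k4 k5
        exact h1 𝔫 k1 (rat_eq.2 k2) k3 k4 k5
    obtain ⟨S, hS, hLH⟩ := Pool.Agent.H885.LHT_most (c := c) (r := r) hEig (Pool.Agent.Helper880_MX.mnL_lie _) hL
      (Pool.Agent.Helper880_MX.mnL_rat _) hr (Pool.Agent.Helper880_MX.mnL_mem _) (fun j => (hmon j).normal) hcod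
      (𝔊 := Pool.Agent.H885.blT r₀ (Pool.Agent.H885.conjT x.C x.𝔤)) (fun j X hX => by
        rw [Pool.Agent.Helper880_R3.ib_apply]
        refine ⟨Pi.single j X, hprod _ fun i => ?_, rfl⟩
        by_cases hi : i = j
        · subst hi
          rw [Pi.single_eq_same]
          exact hX
        · rw [Pi.single_eq_of_ne hi]
          exact Submodule.zero_mem _) hc1
    refine ⟨S, hS, fun 𝔥 h1 h2 h3 j hj X hX => ?_, fun d₀ d τ f hτ => ?_⟩
    · obtain ⟨Y, k0, k1, k2, k3⟩ := Pool.Agent.H885.LHT_mono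
        (Pool.Agent.Helper880_MX.mnL_le (rat_eq.1 h1) h2 h3) hLH j (Finset.mem_compl.2 hj) X hX
      exact ⟨Y, k0, k1, k2, fun i hi hne => k3 i (Finset.mem_compl.2 hi) hne⟩
    · rw [hodge_eq, hodge_eq, inv_eq]
      refine Pool.Agent.H885.hodgeT hL hr (fun j => (hmon j).normal) (fun j => ntq_of (hmon j).nontrivial)
        (Pool.Agent.H885.LHT_mono (Pool.Agent.Helper880_MX.mnL_le Pool.Agent.Helper880_EX.mtB_rat
          Pool.Agent.Helper880_EX.mtB_lie Pool.Agent.Helper880_EX.mtB_phi) hLH) (fun j => (hmon j).constant)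
        fun l => Finset.mem_compl.2 (hτ l)

/-- the two conclusions are monotone in `r` -/
theorem mono {m n N r₀ ℓ r r' : ℕ} {lev₀ : Fin r₀ → ℤ} {lev : Fin N → Fin n → ℤ} {x : Fibres m n N r₀ ℓ} (hr : r ≤ r')
    (h : x.CodimensionAtMost lev₀ lev r ∧ x.MostlyGeneric lev₀ lev r) :
    x.CodimensionAtMost lev₀ lev r' ∧ x.MostlyGeneric lev₀ lev r' := by
  refine ⟨fun φ₀ φ 𝔪 𝔥 h1 h2 h3 h4 h5 h6 => (h.1 φ₀ φ 𝔪 𝔥 h1 h2 h3 h4 h5 h6).trans (Nat.add_le_add_left hr _),
    fun c 𝔪 W φ₀ φc φ h1 h2 h3 h4 h5 => ?_⟩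
  obtain ⟨S, h6, h7⟩ := h.2 c 𝔪 W φ₀ φc φ h1 h2 h3 h4 h5
  exact ⟨S, h6.trans hr, h7⟩

/-- a bounded number of separated tuples -/
theorem core (m n N r₀ q s ℓ e L : ℕ) (lev₀ : Fin r₀ → ℤ) (lev : Fin N → Fin n → ℤ) : ∃ E : ℕ, ∀ (M : ℕ) (β : Fin s → ℂ) (H : ℝ)
    (h w b₀ : ℕ), 1 ≤ H → (2 * H * ((h : ℝ) + w + 2)) ^ E ≤ (b₀ : ℝ) → ∀ x : Fin L → Fibres m n N r₀ ℓ,
    (∀ l, (x l).Valid q M e β H h w b₀) → (∀ l l', l ≠ l' → Separated H h (x l) (x l')) →
    ∃ ρ : Fin L → ℕ, ∑ l, ρ l ≤ s + 1 ∧ ∀ l, (x l).CodimensionAtMost lev₀ lev (ρ l + ℓ) ∧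
      (x l).MostlyGeneric lev₀ lev (ρ l + ℓ) := by
  classical
  set e' : ℕ := max e (max 1 n) with he'
  obtain ⟨E₀, hbase⟩ := Pool.Agent.H885.base_sysN m n q
  obtain ⟨E, hE⟩ := Pool.Agent.H885.ZW.uniformZW n N q r₀ (s + 1) ℓ e' L
    (Pool.Agent.Helper880_ZP.compat_A (Pool.Agent.H885.LvT N lev₀ lev))
  obtain ⟨e₁, he₁⟩ := Pool.Agent.H885.pow_absorb (c := (2 : ℝ) * (1 + 2 ^ m)) (by
    have : (1 : ℝ) ≤ 2 ^ m := one_le_pow₀ (by norm_num)
    linarith)
  refine ⟨(e₁ + E₀ + 1) * E + 1, fun M β H h w b₀ hH hbig₀ xs hxs hsep => ?_⟩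
  set x : ℝ := 2 * H * ((h : ℝ) + w + 2) with hx
  have hh0 : (0 : ℝ) ≤ h := by positivity
  have hw0 : (0 : ℝ) ≤ w := by positivity
  have hx1 : (h : ℝ) + w + 2 ≤ x := by
    rw [hx]
    nlinarith
  have hx2 : 2 ≤ x := by linarith
  have hx3 : H * ((h : ℝ) + 2) ≤ x := by
    rw [hx]
    nlinarith
  have hx4 : 2 * H * ((h : ℝ) + 2) ≤ x := by
    rw [hx]
    nlinarith
  have hb₀ : 0 < b₀ := by
    have h1 : (1 : ℝ) ≤ x ^ ((e₁ + E₀ + 1) * E + 1) := one_le_pow₀ (by linarith)
    have h2 : (1 : ℝ) ≤ b₀ := h1.trans hbig₀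
    exact_mod_cast h2
  have hbig : x ^ ((e₁ + E₀ + 1) * E) ≤ (b₀ : ℝ) := (pow_le_pow_right₀ (by linarith) (Nat.le_succ _)).trans hbig₀
  have hbig' : (2 * (2 * H * ((h : ℝ) + 2)) ^ E₀ * ((w : ℝ) + 2 ^ m * (H * ((h : ℝ) + 2)) + 2)) ^ E ≤ (b₀ : ℝ) := by
    refine le_trans ?_ hbig
    rw [pow_mul]
    refine pow_le_pow_left₀ (by positivity) ?_ E
    have h1 : (2 * H * ((h : ℝ) + 2)) ^ E₀ ≤ x ^ E₀ := pow_le_pow_left₀ (by positivity) hx4 _
    have h2 : (w : ℝ) + 2 ^ m * (H * ((h : ℝ) + 2)) + 2 ≤ (1 + 2 ^ m) * x := by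
      have h3 : (2 : ℝ) ^ m * (H * ((h : ℝ) + 2)) ≤ 2 ^ m * x := mul_le_mul_of_nonneg_left hx3 (by positivity)
      linarith
    calc 2 * (2 * H * ((h : ℝ) + 2)) ^ E₀ * ((w : ℝ) + 2 ^ m * (H * ((h : ℝ) + 2)) + 2) ≤
        2 * x ^ E₀ * ((1 + 2 ^ m) * x) := by
          refine mul_le_mul (by linarith) h2 (by positivity) (by positivity)
      _ = (2 * (1 + 2 ^ m)) * (x ^ E₀ * x) := by ring
      _ ≤ x ^ e₁ * (x ^ E₀ * x) := mul_le_mul_of_nonneg_right (he₁ x hx2) (by positivity)
      _ = x ^ (e₁ + E₀ + 1) := by ring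
  have hFar : ∀ b c : ℕ, Far m H h b c → 2 * (2 ^ m * (H * ((h : ℝ) + 2))) < |(b : ℝ) - c| := by
    intro b c hbc
    refine lt_of_eq_of_lt ?_ hbc
    ring
  have hH1 : (1 : ℝ) ≤ (2 * H * ((h : ℝ) + 2)) ^ E₀ := one_le_pow₀ (by nlinarith)
  have hfam := fun l j => hbase H _ _ _ _ _ (base_of hH ((hxs l).family j)) h _ ((hxs l).numerators j) ((hxs l).pole j)
  choose T' B' hT' hS' using hfam
  have hR : ∀ l j, (∑ i, (xs l).R j i) ^ n = 0 := fun l j =>
    Pool.Agent.H885.sumR_nil ((hxs l).family j).comm ((hxs l).family j).nil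
  set X : Pool.Agent.H885.DatX L n N := ⟨fun l j => ∑ i, (xs l).R j i, (2 * H * ((h : ℝ) + 2)) ^ E₀, T', B',
    fun l j => Pool.Agent.H885.lineM ((xs l).a j) ((xs l).Z j), fun l j => Pool.Agent.H885.lineM ((xs l).a j) ((xs l).W j),
    2 ^ m * (H * ((h : ℝ) + 2)), w, b₀, fun l => (xs l).b, fun l => (xs l).𝔤⟩ with hX
  have ht0 : 0 < X.t := by
    unfold Pool.Agent.H885.DatX.t
    omega
  set lt : ℂ := Complex.log ((X.t : ℝ) : ℂ) with hlt
  set Y : Pool.Agent.H885.ZW.DatZ L n N r₀ (s + 1) ℓ := ⟨Fin.cons lt β, fun l => (xs l).γ, fun l => (xs l).κ,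
    fun l => (xs l).C₀, fun l => (xs l).C, fun l j => Pool.Agent.H885.eP (∑ i, (xs l).R j i) lt, fun l j => X.z l j,
    fun l => (xs l).𝔤⟩ with hY
  have hsol : ∀ l j, solution ((xs l).R j) ((xs l).Z j) ((xs l).a j) ((xs l).b j) =
      Pool.Agent.H885.eP (∑ i, (xs l).R j i) lt * X.z l j := fun l j =>
    periods_eq (hxs l).family ht0 (fun j => lt_of_lt_of_le hb₀ ((hxs l).window j).1) j
  have hP : ∀ l, Y.P l = total (xs l).C₀ (xs l).periods := by
    intro l
    have h1 : (fun j => Y.C l j * Y.z l j) = (xs l).periods := by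
      funext j
      show (xs l).C j * Pool.Agent.H885.eP (∑ i, (xs l).R j i) lt * X.z l j = (xs l).C j * solution _ _ _ _
      rw [hsol, Matrix.mul_assoc]
    show Pool.Agent.Helper880_R3.Tot (xs l).C₀ (fun j => Y.C l j * Y.z l j) = _
    rw [h1]
    rfl
  have hren : ∀ (l : Fin L) (y : ℂ), AlgebraicOver e (Fin.append β (xs l).γ) y →
      Pool.Agent.H885.AlgD e' (Fin.append (Fin.cons lt β : Fin (s + 1) → ℂ) (xs l).γ) y := by
    intro l y hy
    refine Pool.Agent.H885.AlgD.mono (le_max_left _ _) (Pool.Agent.H885.MW.algD_map (ξ := Fin.append β (xs l).γ)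
      (Fin.addCases (fun i => Fin.castAdd ℓ i.succ) (fun i => Fin.natAdd (s + 1) i)) (fun i => ?_) hy)
    refine Fin.addCases (fun i => ?_) (fun i => ?_) i
    · rw [Fin.addCases_left, Fin.append_left, Fin.append_left, Fin.cons_succ]
    · rw [Fin.addCases_right, Fin.append_right, Fin.append_right]
  have hXOK : X.OK q E := ⟨hH1, hS', hT', by positivity, fun l j a' b' =>
      Pool.Agent.Y120.GH.cx_mem (by positivity) (Pool.Agent.H885.line_size hH (((hxs l).family j).size a' b')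
        ((hxs l).numerators j)),
      fun l j => (hxs l).window j, fun l j l' j' hne => by
        by_cases hll : l = l'
        · subst hll
          rcases (hxs l).far j j' with h2 | h2
          · exact absurd ⟨rfl, h2⟩ hne
          · exact hFar _ _ h2
        · exact hFar _ _ (hsep l l' hll j j'), hbig', fun l Z hZ c lam => by
          have h1 := sym_inf.1 ((hxs l).symmetries _ ((hxs l).stable Z hZ lam) c)
          have h2 : (fun j => if (xs l).b j = c then (xs l).twist lam Z j else 0) =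
              fun j => if (xs l).b j = c then Pool.Agent.H885.eP (∑ i, (xs l).R j i) (-lam) * Z j *
                Pool.Agent.H885.eP (∑ i, (xs l).R j i) lam else 0 := by
            funext j
            rw [twist_eq (hR l)]
          rw [h2] at h1
          exact h1⟩
  have hYOK : Y.OK e' := by
    refine ⟨fun l => (hxs l).factor, fun l i j => hren l _ ((hxs l).central₀ i j), fun l a i j => hren l _ ((hxs l).central a i j),
      fun l a i j => ?_, fun l => ?_⟩
    · have h1 := Pool.Agent.H885.algD_eP ((le_max_left _ _).trans (le_max_right _ _)) ((le_max_right _ _).trans (le_max_right _ _))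
        (∑ i, (xs l).R a i) (Fin.append (Fin.cons lt β : Fin (s + 1) → ℂ) (xs l).γ) (Fin.castAdd ℓ 0) i j (e := e')
      rw [Fin.append_left, Fin.cons_zero] at h1
      exact h1
    · rw [hP]
      exact (hxs l).invertible
  obtain ⟨ρ, hρ, hρ'⟩ := hE X Y hXOK hYOK (fun l j => rfl) (fun l => rfl)
  refine ⟨ρ, hρ, fun l => concl (hxs l).invertible fun R hRR => ?_⟩
  have h1 := hρ' l R (by
    rw [hP]
    exact hRR)
  have h2 : Pool.Agent.H885.conjT (Y.C l) (Y.𝔤 l) = Pool.Agent.H885.conjT (xs l).C (xs l).𝔤 :=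
    conj_twist (hR l) (hxs l).stable lt
  rw [h2] at h1
  exact h1

/-- parts 1 and 2 -/
theorem parts (m n N r₀ M q s ℓ e : ℕ) (lev₀ : Fin r₀ → ℤ) (lev : Fin N → Fin n → ℤ) :
    ∃ E : ℕ, ∀ (β : Fin s → ℂ) (H : ℝ) (h w b₀ : ℕ), 1 ≤ H → (2 * H * ((h : ℝ) + w + 2)) ^ E ≤ (b₀ : ℝ) →
    (∀ (L : ℕ) (x : Fin L → Fibres m n N r₀ ℓ), (∀ l, (x l).Valid q M e β H h w b₀) →
      (∀ l l', l ≠ l' → Separated H h (x l) (x l')) →
      ∃ ρ : Fin L → ℕ, ∑ l, ρ l ≤ s + 1 ∧ ∀ l, (x l).CodimensionAtMost lev₀ lev (ρ l + ℓ) ∧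
        (x l).MostlyGeneric lev₀ lev (ρ l + ℓ)) ∧
    ∀ r : ℕ, ℓ ≤ r → ∃ F : Finset ℕ, F.card ≤ M * ((s + 1) / (r + 1 - ℓ)) ∧
      ∀ x : Fibres m n N r₀ ℓ, x.Valid q M e β H h w b₀ → (∀ j, ∀ c ∈ F, Far m H h (x.b j) c) →
      x.CodimensionAtMost lev₀ lev r ∧ x.MostlyGeneric lev₀ lev r := by
  classical
  choose E hE using fun L => core m n N r₀ q s ℓ e L lev₀ lev
  set E' : ℕ := ∑ L ∈ Finset.range (s + 3), E L with hE'
  have hle : ∀ L, L ≤ s + 2 → E L ≤ E' := fun L hL =>
    Finset.single_le_sum (f := fun L => E L) (fun _ _ => Nat.zero_le _) (Finset.mem_range.2 (by omega : L < s + 3))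
  refine ⟨E', fun β H h w b₀ hH hbig => ?_⟩
  have hx1 : (1 : ℝ) ≤ 2 * H * ((h : ℝ) + w + 2) := by
    have h1 : (0 : ℝ) ≤ h := by positivity
    have h2 : (0 : ℝ) ≤ w := by positivity
    nlinarith
  set Gd : Fibres m n N r₀ ℓ → ℕ → Prop := fun x r => x.CodimensionAtMost lev₀ lev r ∧ x.MostlyGeneric lev₀ lev r with hGd
  have hGm : ∀ x r r', r ≤ r' → Gd x r → Gd x r' := fun x r r' hr h1 => mono hr h1
  -- at most `s + 2` tuples
  have hcore : ∀ (L : ℕ) (x : Fin L → Fibres m n N r₀ ℓ), L ≤ s + 2 → (∀ l, (x l).Valid q M e β H h w b₀) →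
      (∀ l l', l ≠ l' → Separated H h (x l) (x l')) →
      ∃ ρ : Fin L → ℕ, ∑ l, ρ l ≤ s + 1 ∧ ∀ l, Gd (x l) (ρ l + ℓ) := by
    intro L x hL hx hsep
    refine hE L M β H h w b₀ hH ?_ x hx hsep
    exact (pow_le_pow_right₀ hx1 (hle L hL)).trans hbig
  -- the defect
  have hex : ∀ x : Fibres m n N r₀ ℓ, x.Valid q M e β H h w b₀ → ∃ ρ, Gd x (ρ + ℓ) := by
    intro x hx
    obtain ⟨ρ, -, hρ⟩ := hcore 1 (fun _ => x) (by omega) (fun _ => hx) fun l l' hll => absurd (Subsingleton.elim l l') hll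
    exact ⟨ρ 0, hρ 0⟩
  set df : Fibres m n N r₀ ℓ → ℕ := fun x => if hx : x.Valid q M e β H h w b₀ then Nat.find (hex x hx) else 0 with hdf
  have hdf1 : ∀ x : Fibres m n N r₀ ℓ, x.Valid q M e β H h w b₀ → Gd x (df x + ℓ) := by
    intro x hx
    rw [hdf]
    simp only [dif_pos hx]
    exact Nat.find_spec (hex x hx)
  have hdf2 : ∀ (x : Fibres m n N r₀ ℓ) (ρ : ℕ), x.Valid q M e β H h w b₀ → Gd x (ρ + ℓ) → df x ≤ ρ := by
    intro x ρ hx hρ
    rw [hdf]
    simp only [dif_pos hx]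
    exact Nat.find_min' (hex x hx) hρ
  have hmain : ∀ (L : ℕ) (x : Fin L → Fibres m n N r₀ ℓ), (∀ l, (x l).Valid q M e β H h w b₀) →
      (∀ l l', l ≠ l' → Separated H h (x l) (x l')) → ∑ l, df (x l) ≤ s + 1 := by
    intro L x hx hsep
    -- subsets
    have hsub : ∀ Λ : Finset (Fin L), Λ.card ≤ s + 2 → ∑ l ∈ Λ, df (x l) ≤ s + 1 := by
      intro Λ hΛ
      set f := Λ.orderEmbOfFin rfl with hf
      obtain ⟨ρ, hρ, hρ'⟩ := hcore Λ.card (fun i => x (f i)) hΛ (fun i => hx _) fun i i' hii =>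
        hsep _ _ fun h1 => hii (f.injective h1)
      have h1 : ∑ i : Fin Λ.card, df (x (f i)) = ∑ l ∈ Λ, df (x l) := by
        have h2 : Λ = Finset.univ.map f.toEmbedding := by
          rw [hf, ← Finset.coe_inj]
          simp
        conv_rhs => rw [h2, Finset.sum_map]
        rfl
      rw [← h1]
      exact (Finset.sum_le_sum fun i _ => hdf2 _ _ (hx _) (hρ' i)).trans hρ
    set Λ := Finset.univ.filter fun l => df (x l) ≠ 0 with hΛ
    have h1 : ∑ l, df (x l) = ∑ l ∈ Λ, df (x l) := by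
      rw [hΛ, Finset.sum_filter_ne_zero]
    rcases le_or_gt Λ.card (s + 2) with h2 | h2
    · rw [h1]
      exact hsub Λ h2
    · obtain ⟨Λ', hΛ', hcard⟩ := Finset.exists_subset_card_eq (s := Λ) h2.le
      have h3 := hsub Λ' hcard.le
      have h4 : Λ'.card ≤ ∑ l ∈ Λ', df (x l) := by
        rw [Finset.card_eq_sum_ones]
        refine Finset.sum_le_sum fun l hl => ?_
        have := (Finset.mem_filter.1 (hΛ' hl)).2
        omega
      omega
  refine ⟨fun L x hx hsep => ⟨fun l => df (x l), hmain L x hx hsep, fun l => hdf1 _ (hx l)⟩, fun r hr => ?_⟩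
  -- the exceptional denominators
  set P : ℕ → Prop := fun p => ∃ x : Fin p → Fibres m n N r₀ ℓ, (∀ l, (x l).Valid q M e β H h w b₀) ∧
    (∀ l l', l ≠ l' → Separated H h (x l) (x l')) ∧ ∀ l, ¬ Gd (x l) r with hP
  have hPle : ∀ p, P p → p ≤ (s + 1) / (r + 1 - ℓ) := by
    rintro p ⟨x, hx, hsep, hbad⟩
    rw [Nat.le_div_iff_mul_le (by omega)]
    have h1 := hmain p x hx hsep
    have h2 : ∀ l, r + 1 - ℓ ≤ df (x l) := by
      intro l
      by_contra hcon
      apply hbad l
      exact hGm (x l) (df (x l) + ℓ) r (by omega) (hdf1 (x l) (hx l))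
    have h3 : ∑ _l : Fin p, (r + 1 - ℓ) ≤ ∑ l, df (x l) := Finset.sum_le_sum fun l _ => h2 l
    rw [Finset.sum_const, Finset.card_univ, Fintype.card_fin, smul_eq_mul] at h3
    exact h3.trans h1
  have hP0 : P 0 := ⟨fun l => l.elim0, fun l => l.elim0, fun l => l.elim0, fun l => l.elim0⟩
  obtain ⟨p, hPp, hPp1⟩ : ∃ p, P p ∧ ¬ P (p + 1) := by
    by_contra hcon
    push Not at hcon
    have h1 : ∀ p, P p := by
      intro p
      induction p with
      | zero => exact hP0
      | succ p ih => exact hcon p ih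
    have := hPle _ (h1 ((s + 1) / (r + 1 - ℓ) + 1))
    omega
  have hple := hPle p hPp
  obtain ⟨x, hx, hsep, hbad⟩ := hPp
  refine ⟨Finset.univ.biUnion fun l => Finset.univ.image (x l).b, ?_, fun y hy hyF => ?_⟩
  · refine Finset.card_biUnion_le.trans ?_
    refine (Finset.sum_le_card_nsmul _ _ M fun l _ => (hx l).different).trans ?_
    rw [Finset.card_univ, Fintype.card_fin, smul_eq_mul, mul_comm]
    exact Nat.mul_le_mul_left _ hple
  · by_contra hybad
    apply hPp1
    refine ⟨Fin.cons y x, fun l => ?_, fun l l' hll i j => ?_, fun l => ?_⟩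
    · refine Fin.cases ?_ (fun l => ?_) l
      · exact hy
      · exact hx l
    · have hin : ∀ l j, (x l).b j ∈ Finset.univ.biUnion fun l => Finset.univ.image (x l).b := fun l j =>
        Finset.mem_biUnion.2 ⟨l, Finset.mem_univ _, Finset.mem_image_of_mem _ (Finset.mem_univ _)⟩
      rcases Fin.eq_zero_or_eq_succ l with rfl | ⟨l, rfl⟩ <;> rcases Fin.eq_zero_or_eq_succ l' with rfl | ⟨l', rfl⟩
      · exact absurd rfl hll
      · rw [Fin.cons_zero, Fin.cons_succ]
        exact hyF i _ (hin l' j)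
      · rw [Fin.cons_zero, Fin.cons_succ]
        exact far_symm (hyF j _ (hin l i))
      · rw [Fin.cons_succ, Fin.cons_succ]
        exact hsep l l' (fun h1 => hll (by rw [h1])) i j
    · refine Fin.cases ?_ (fun l => ?_) l
      · exact hybad
      · exact hbad l

/-- **The theorem.** Part 1: the sum of the codimensions of the special subvarieties through separated tuples of points is at
most `s + 1` (up to `ℓ` for each tuple). Part 2: the number of exceptional denominators with codimensions larger than `r`, in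
short windows. Part 3: the number of all denominators with codimensions larger than `ℓ`. -/
theorem result (m n N r₀ M q s ℓ e : ℕ) (lev₀ : Fin r₀ → ℤ) (lev : Fin N → Fin n → ℤ) :
    (∃ E : ℕ, ∀ (β : Fin s → ℂ) (H : ℝ) (h w b₀ : ℕ), 1 ≤ H → (2 * H * ((h : ℝ) + w + 2)) ^ E ≤ (b₀ : ℝ) →
    (∀ (L : ℕ) (x : Fin L → Fibres m n N r₀ ℓ), (∀ l, (x l).Valid q M e β H h w b₀) →
      (∀ l l', l ≠ l' → Separated H h (x l) (x l')) →
      ∃ ρ : Fin L → ℕ, ∑ l, ρ l ≤ s + 1 ∧ ∀ l, (x l).CodimensionAtMost lev₀ lev (ρ l + ℓ) ∧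
        (x l).MostlyGeneric lev₀ lev (ρ l + ℓ)) ∧
    ∀ r : ℕ, ℓ ≤ r → ∃ F : Finset ℕ, F.card ≤ M * ((s + 1) / (r + 1 - ℓ)) ∧
      ∀ x : Fibres m n N r₀ ℓ, x.Valid q M e β H h w b₀ → (∀ j, ∀ c ∈ F, Far m H h (x.b j) c) →
      x.CodimensionAtMost lev₀ lev r ∧ x.MostlyGeneric lev₀ lev r) ∧
    ∃ k : ℕ, 0 < k ∧ ∀ (β : Fin s → ℂ) (H : ℝ) (h : ℕ), 1 ≤ H → ∃ C : ℝ, ∀ B : ℕ, 0 < B →
      ((exceptional m n N r₀ ℓ q e lev₀ lev β H h B).ncard : ℝ) ^ k ≤ C * (B : ℝ) ^ (k - 1) := by
  classical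
  obtain ⟨E, hE⟩ := parts m n N r₀ 1 q s ℓ e lev₀ lev
  refine ⟨parts m n N r₀ M q s ℓ e lev₀ lev, 2 * (E + 1), by omega, fun β H h hH => ?_⟩
  exact Pool.Agent.H885.count_windows (fun B => exceptional m n N r₀ ℓ q e lev₀ lev β H h B) hH h m (s + 1) E
    (fun B b hb => hb.1) fun w b₀ hbig => by
      obtain ⟨-, h0⟩ := hE β H h w b₀ hH hbig
      obtain ⟨F, h1, h2⟩ := h0 ℓ le_rfl
      have h3 : ℓ + 1 - ℓ = 1 := by omega
      rw [h3, Nat.div_one, one_mul] at h1
      refine ⟨F, h1, fun B b hb hb1 hb2 => ?_⟩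
      obtain ⟨x, hx1, hx2, hx3⟩ := hb.2
      by_contra hcon
      push Not at hcon
      refine hx3 (h2 x ⟨fun j => ?_, hx1.far, hx1.different, hx1.numerators, hx1.family, hx1.pole, hx1.factor, hx1.central₀,
        hx1.central, hx1.invertible, hx1.symmetries, hx1.stable⟩ fun j c hc => ?_)
      · rw [hx2 j]
        exact ⟨hb1, hb2⟩
      · rw [hx2 j]
        exact hcon c hc

end Pool.Agent.Results.MP_eeb1a4_ag.CodimensionsNearDegenerate
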