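import Pool.Agent.H882.FmRes
import Pool.Agent.H882.MxRes

/-!
# MP_eeb1a4_ag: the atypical Hodge locus of variations of mixed Hodge structures is empty for one hundred
percent of the translates of the members of families which degenerate to unions of coordinate subspaces

**The variation.** Let `R_i = num_i / den_i` (`i ≤ n`) be nonconstant rational functions over `ℚ` and
`U_j = u_j / w_j` (`j ≤ k`) nonzero rational functions over a countable field `F ⊂ ℂ`. On (a finite
covering of) the open subset of `ℂ^(n+k)` on which everything is defined there is the variation of mixed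
Hodge structures `𝕍` which is the sum of the `H^1` of elliptic curves with the `j`-invariants
`R_1 (x_1), …, R_n (x_n)` and of the Kummer extensions of `ℤ` by `ℤ(1)` given by the numbers
`t^(A_j) U_j (x_(n+j))`, `t^(A_j) = t_1^(A_(1,j)) ⋯ t_M^(A_(M,j))`, with natural numbers `t_1, …, t_M`, for
`j ≤ k`. The special subvarieties of a subvariety `S` are the components of the inverse images of the
products `Z × C` of a special subvariety `Z` of `Y(1)^n` and a torsion coset `C` of `G_m^k` under the
period map `S → Y(1)^n × G_m^k` (`Y(1)^n` is identified with `ℂ^n` by `jj = j = E₄³ / Δ`; `periods` is the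
image of the period map). If no `U_j` is constant the period map is finite.

**The families.** Let `X_(δ,t,λ) ⊂ ℂ^(n+k)` be a family of sets of dimension `m`, over `F`, with parameters
`δ ∈ ℤ^N`, `t ∈ ℕ^M`, `λ ∈ ℂ^q` (`Family`, `Family.member`), which degenerates along the hypersurface
`t_1 ⋯ t_M = 0` to the union of the `m`-dimensional coordinate subspaces: for every set `J` of `m + 1`
coordinates there is an equation

  `lead_J (δ) ∏_(i ∈ J) x_i ^ e_(J,i) + t_1 ⋯ t_M rest_J (δ, t, λ, x) = 0`

with polynomials over `F`, `lead_J ≠ 0`, and `rest_J` of degree at most `e_(J,i)` in `x_i` (and so independent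
of the `x_i`, `i ∉ J`). For example, for an arbitrary subvariety `V` of dimension `m` over `F` this is so for
* the images of `V` under the Möbius transformations `y_i ↦ t λ_i / (y_i - δ_i)`, `t = t_1 ⋯ t_M`: if
  `P_J (y_j, j ∈ J) = 0` is an equation for `V` of degree `e_(J,i)` in `y_i`, then `lead_J = P_J (δ)` and
  the equation is `∏ x_i ^ e_(J,i) P_J (δ_i + t λ_i / x_i) = 0`;
* the homothetic images `t λ V` of the varieties `V` in general position at infinity;
* the images under more general algebraic maps and correspondences, for example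
  `x_i ^ a = t λ_i / (y_i - δ_i)`, and for all deformations of unions of coordinate subspaces, like the
  curves `x_i x_j = t (a_ij + b_ij x_i + c_ij x_j + d_ij x_i x_j)`.

For `s ∈ ℤ^(n+k)` let `s + X_(δ,t,λ)` be the translate. So the translates degenerate to the unions of the
`m`-dimensional coordinate subspaces through the integral point `s`, which is not near to the boundary
of the Shimura variety.

**Theorem.** Let the matrix `A` be generic (`Generic`; no condition for `k = 0`). For one hundred percent
of the `(s, δ, t) ∈ ℤ^(n+k) × ℤ^N × ℕ^M` (all `t_l > 0`; all but a set of density zero, ordered by the size),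
and for all algebraic integers `λ_i`, the image of `s + X_(δ,t,λ)` under the period map has no atypical
intersection with products `Z × C` (`NoAtypical`). Here `C` can be any coset of an algebraic subgroup of the
torus by a point whose coordinates are units away from a given number `D`, for example a torsion coset.

`NoAtypical F D m Y` means that for each point `y` of `Y ∩ (Z × C)` the sets of coordinates of `y` which
are algebraically independent over `F` have at most `m + dim (Z × C) - (n + k)` elements, where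
`dim C = k - rank L` for the group `L` of the characters which are constant on `C`. A component of
the intersection has a point which is generic over the algebraic closure of `F` (extended by the `λ_i`,
which are algebraic), so that its dimension is at most `m + dim (Z × C) - (n + k)`. If `S` is an irreducible
subvariety of dimension `m` of `s + X_(δ,t,λ)` and no `U_j` is constant, the image of the period map of
`S` has dimension `m`, it is not contained in a product `Z × C` different from `Y(1)^n × G_m^k` (so that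
this is the quotient `Γ \ 𝒟` of the generic Mumford-Tate domain of `𝕍` on `S`), and all special
subvarieties of `S` are typical: `HL(S, 𝕍^⊗)_atyp` is empty, and Q1 is true for `S` and `𝕍`.

**Generic matrices.** `A` is generic if for each group `L` of characters of the torus there is a row `a`
of `A` such that for all sets `B` of fewer than `rank L` coordinates there is a character `χ ∈ L` which
is zero on `B`, with `χ · a ≠ 0`. For example this is true if `A` has more than `(k - 1) 2^k` rows, any `k` of
which are linearly independent (lemma `gen_of_det`), and for `A = (1)` if `k = 1`.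

**Relation to earlier results.** Our results `MP_a325a5_ag.ModularTimesTorus` and
`MP_defd1c_ag.MoebiusTranslates` are about `R_i = U_j = T` and homothetic images, resp. Möbius images of
fixed varieties `V`. New here are the arbitrary degenerating families (where the coordinates are near to
`s_i` only in a weak sense, with arbitrary ramification), and the rational functions `R_i`, `U_j`. The
library has families which degenerate to the cusps (for this problem `PartialBoxDegenerations`,
`MixedPartialDegeneration`, `TwistedFamilies`, `OneNullSet`, and pull-backs in `UniformPullbacks`).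

**Idea of the proof.** If a large prime `p` divides `t_l`, for all embeddings of `ℂ` into `ℂ_p` such that
the coefficients and `lead_J (δ)` are units all points of the members have at most `m` coordinates with
`|x_i|^(p-1) ≥ |p|`. The other modular coordinates `R_i (s_i + x_i)` are near to integers `s'_i` with
`s'_i ≡ R_i (s_i)`, and if `(s'_i) mod p` is not in an exceptional set of `O (p^(n-1/2+ε))` classes
(Kronecker's congruence, class numbers) they are not isogenous, and different from singular moduli, with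
exceptions which are different for different `p`. The torus coordinates are treated with the valuations
of the numbers `t^(A_j)` at the different parameters `t_l`. That almost all parameters have enough good
primes is shown by a sieve (module `AdCount`).
-/

set_option autoImplicit false

namespace Pool.Agent.Results.MP_eeb1a4_ag.DegeneratingFamilies

open UpperHalfPlane H294ZP Polynomial

/-- A special subvariety of dimension `r` of `Y(1)^n`: a map `cls` from the coordinates onto `r`
classes (`none` for the constant coordinates), an integral matrix of positive determinant for each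
coordinate, and a CM point for each coordinate. -/
structure SpecialVariety (n r : ℕ) where
  cls : Fin n → Option (Fin r)
  surj : ∀ l : Fin r, ∃ i, cls i = some l
  mat : Fin n → Matrix (Fin 2) (Fin 2) ℤ
  det_pos : ∀ i, 0 < (mat i).det
  cm : Fin n → ℍ
  isCM : ∀ i, IsCM (cm i)

/-- The points of a special subvariety: the constant coordinates are the singular moduli
`j (cm i)`, the other coordinates are `j (g_i z_l)`, where `l` is the class of `i`, `g_i = mat i` and
`z_1, …, z_r` are free parameters in the upper half plane. -/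
def SpecialVariety.locus {n r : ℕ} (Z : SpecialVariety n r) : Set (Fin n → ℂ) :=
  {x | ∃ z : Fin r → ℍ, ∀ i, (Z.cls i = none → x i = jj (Z.cm i)) ∧
    ∀ l, Z.cls i = some l → ∃ w : ℍ,
      (w : ℂ) * (Z.mat i 1 0 * z l + Z.mat i 1 1) = Z.mat i 0 0 * z l + Z.mat i 0 1 ∧ x i = jj w}

/-- A coset of an algebraic subgroup of `G_m^k`: `chars` is a group of characters which are constant on
the coset, and `pt` is a point of the coset whose coordinates are units away from `D`. For points of
finite order this is true for all `D`. -/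
structure Coset (D k : ℕ) where
  chars : AddSubgroup (Fin k → ℤ)
  pt : Fin k → ℂ
  ne_zero : ∀ j, pt j ≠ 0
  unit : ∀ j, IsIntegral ℤ ((D : ℂ) * pt j) ∧ IsIntegral ℤ ((D : ℂ) * (pt j)⁻¹)

/-- The points of a coset. Its dimension is `k - rank chars`. -/
def Coset.locus {D k : ℕ} (C : Coset D k) : Set (Fin k → ℂ) :=
  {z | (∀ j, z j ≠ 0) ∧ ∀ χ ∈ C.chars, ∏ j, z j ^ χ j = ∏ j, C.pt j ^ χ j}

/-- For each special subvariety `Z` of dimension `r`, each coset `C` (of dimension
`k - rank C.chars`), and each point of `Y ∩ (Z × C)`: families of coordinates which are algebraically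
independent over `F` have at most `m + dim (Z × C) - (n + k)` elements. -/
def NoAtypical {n k : ℕ} (F : Subfield ℂ) (D m : ℕ) (Y : Set ((Fin n → ℂ) × (Fin k → ℂ))) : Prop :=
  ∀ (r : ℕ) (Z : SpecialVariety n r) (C : Coset D k), ∀ y ∈ Y, y.1 ∈ Z.locus → y.2 ∈ C.locus →
    ∀ (W : Finset (Fin n)) (V : Finset (Fin k)),
      AlgebraicIndependent F (Sum.elim (fun i : W => y.1 i) (fun j : V => y.2 j)) →
      n + W.card + V.card + Module.finrank ℤ C.chars ≤ m + r

/-- A family of subsets of `ℂ^d` of dimension `m` with parameters `δ ∈ ℤ^N`, `t ∈ ℕ^M`, `λ ∈ ℂ^q`,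
which degenerates to the union of the coordinate subspaces of dimension `m` if `t_l = 0` for some `l`:
for each set `J` of `m + 1` coordinates there is an equation
`lead_J (δ) ∏_(i ∈ J) x_i ^ (expo_J i) + t_1 ⋯ t_M rest_J (δ, t, λ, x) = 0` with polynomials over `F`,
`lead_J ≠ 0`, and `rest_J` of degree at most `expo_J i` in `x_i`. -/
structure Family (F : Subfield ℂ) (d N M q m : ℕ) where
  expo : Finset (Fin d) → Fin d → ℕ
  lead : Finset (Fin d) → MvPolynomial (Fin N) F
  rest : Finset (Fin d) → MvPolynomial ((Fin N ⊕ Fin M) ⊕ (Fin q ⊕ Fin d)) F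
  expo_eq_zero : ∀ J i, i ∉ J → expo J i = 0
  lead_ne_zero : ∀ J, lead J ≠ 0
  degree_le : ∀ J i, (rest J).degreeOf (Sum.inr (Sum.inr i)) ≤ expo J i

/-- The member of the family with the parameters `δ, t, λ`. -/
def Family.member {F : Subfield ℂ} {d N M q m : ℕ} (X : Family F d N M q m) (δ : Fin N → ℤ)
    (t : Fin M → ℕ) (lam : Fin q → ℂ) : Set (Fin d → ℂ) :=
  {x | ∀ J : Finset (Fin d), J.card = m + 1 →
    MvPolynomial.aeval (fun i => (δ i : ℂ)) (X.lead J) * ∏ i, x i ^ X.expo J i +
      (∏ l, (t l : ℂ)) * MvPolynomial.aeval (Sum.elim (Sum.elim (fun i => (δ i : ℂ))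
        (fun l => (t l : ℂ))) (Sum.elim lam x)) (X.rest J) = 0}

/-- The numerator and the denominator of a rational function are linearly independent, that is, the
rational function is not constant. -/
def Nonconstant (a b : ℤ[X]) : Prop :=
  ∀ c d : ℤ, Polynomial.C c * a = Polynomial.C d * b → c = 0 ∧ d = 0

/-- The periods of the variation on the translate `s + X`: the `j`-invariants
`R_i (s_i + x_i)` of the elliptic curves, with `R_i = num_i / den_i`, and the numbers
`t^(A_j) U_j (s_(n+j) + x_(n+j))`, with `U_j = u_j / w_j`, for the points `x` of `X` at which they are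
defined. -/
def periods {F : Subfield ℂ} {n k M : ℕ} (A : Fin M → Fin k → ℤ) (num den : Fin n → ℤ[X])
    (u w : Fin k → F[X]) (s : Fin (n + k) → ℤ) (t : Fin M → ℕ) (X : Set (Fin (n + k) → ℂ)) :
    Set ((Fin n → ℂ) × (Fin k → ℂ)) :=
  {y | ∃ x ∈ X, (∀ i : Fin n,
      aeval ((s (Fin.castAdd k i) : ℂ) + x (Fin.castAdd k i)) (den i) ≠ 0 ∧
      y.1 i * aeval ((s (Fin.castAdd k i) : ℂ) + x (Fin.castAdd k i)) (den i) =
        aeval ((s (Fin.castAdd k i) : ℂ) + x (Fin.castAdd k i)) (num i)) ∧
    ∀ j : Fin k, aeval ((s (Fin.natAdd n j) : ℂ) + x (Fin.natAdd n j)) (w j) ≠ 0 ∧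
      y.2 j * aeval ((s (Fin.natAdd n j) : ℂ) + x (Fin.natAdd n j)) (w j) =
        (∏ l, (t l : ℂ) ^ A l j) * aeval ((s (Fin.natAdd n j) : ℂ) + x (Fin.natAdd n j)) (u j)}

/-- For each group `L` of characters there is a row of `A` such that for all sets `B` of fewer than
`rank L` coordinates a character in `L` is zero on `B` and not orthogonal to this row. -/
def Generic {M k : ℕ} (A : Fin M → Fin k → ℤ) : Prop :=
  ∀ L : AddSubgroup (Fin k → ℤ), ∃ l, ∀ B : Finset (Fin k), B.card < Module.finrank ℤ L →
    ∃ χ ∈ L, (∀ j ∈ B, χ j = 0) ∧ ∑ j, χ j * A l j ≠ 0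

/-- `N'` has density zero in `ℤ^d × ℤ^N × ℕ^M`. -/
def DensityZero {d N M : ℕ} (N' : Set ((Fin d → ℤ) × (Fin N → ℤ) × (Fin M → ℕ))) : Prop :=
  ∀ ε : ℝ, 0 < ε → ∃ H₀ : ℕ, ∀ H : ℕ, H₀ ≤ H →
    ({p : (Fin d → ℤ) × (Fin N → ℤ) × (Fin M → ℕ) | p ∈ N' ∧ (∀ i, |p.1 i| ≤ (H : ℤ)) ∧
      (∀ i, |p.2.1 i| ≤ (H : ℤ)) ∧ ∀ l, p.2.2 l ≤ H}.ncard : ℝ) ≤ ε * (H : ℝ) ^ (d + N + M)

open Pool.Agent.H882 Pool.Agent.Y226

/-- The theorem. -/
theorem result (n k M N q : ℕ) (A : Fin M → Fin k → ℤ) (hA : Generic A)
    (F : Subfield ℂ) [Countable F] (m : ℕ) (X : Family F (n + k) N M q m)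
    (num den : Fin n → ℤ[X]) (hR : ∀ i, Nonconstant (num i) (den i))
    (u w : Fin k → F[X]) (hu : ∀ j, u j ≠ 0) (hw : ∀ j, w j ≠ 0) (D : ℕ) (hD : 0 < D) :
    DensityZero {p : (Fin (n + k) → ℤ) × (Fin N → ℤ) × (Fin M → ℕ) | (∀ l, 0 < p.2.2 l) ∧
      ¬ ∀ lam : Fin q → ℂ, (∀ i, IsIntegral ℤ (lam i)) →
        NoAtypical F D m (periods A num den u w p.1 p.2.2 (X.member p.2.1 p.2.2 lam))} := by
  classical
  obtain ⟨E, Γ, hE, hΓ, hΓ2, hcore⟩ := core_all_w n
  let σ : Fin n → Fin (n + k + N) := fun i => Fin.castAdd N (Fin.castAdd k i)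
  have hσ : Function.Injective σ := fun i j h =>
    Fin.castAdd_injective n k (Fin.castAdd_injective (n + k) N h)
  have hinjF : Function.Injective (algebraMap F ℂ) := (algebraMap F ℂ).injective
  -- the unit conditions
  let Qu : F[X] → Fin k → MvPolynomial (Fin (n + k + N)) ℂ := fun g j =>
    MvPolynomial.map (algebraMap F ℂ) (g.toMvPolynomial (Fin.castAdd N (Fin.natAdd n j)))
  let Ql : Finset (Fin (n + k)) → MvPolynomial (Fin (n + k + N)) ℂ := fun J =>
    MvPolynomial.map (algebraMap F ℂ) (MvPolynomial.rename (Fin.natAdd (n + k)) (X.lead J))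
  let Q : Finset (MvPolynomial (Fin (n + k + N)) ℂ) := (Finset.univ.image Ql) ∪
    ((Finset.univ.image fun j => Qu (u j) j) ∪ (Finset.univ.image fun j => Qu (w j) j))
  have hmapF : ∀ (τ : Type) (g : MvPolynomial τ F) (v : τ →₀ ℕ),
      (MvPolynomial.map (algebraMap F ℂ) g).coeff v ∈ F := by
    intro τ g v
    rw [MvPolynomial.coeff_map]
    exact (g.coeff v).2
  have hmap0 : ∀ (τ : Type) (g : MvPolynomial τ F), g ≠ 0 →
      MvPolynomial.map (algebraMap F ℂ) g ≠ 0 := by
    intro τ g hg h
    exact hg (MvPolynomial.map_injective _ hinjF (by rw [h, map_zero]))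
  have hQ0 : ∀ q ∈ Q, q ≠ 0 := by
    intro q hq
    rcases Finset.mem_union.1 hq with hq | hq
    · obtain ⟨J, -, rfl⟩ := Finset.mem_image.1 hq
      refine hmap0 _ _ fun h => X.lead_ne_zero J ?_
      exact MvPolynomial.rename_injective _ (Fin.natAdd_injective N (n + k)) (by rw [h, map_zero])
    · rcases Finset.mem_union.1 hq with hq | hq
      · obtain ⟨j, -, rfl⟩ := Finset.mem_image.1 hq
        refine hmap0 _ _ fun h => hu j ?_
        exact Polynomial.toMvPolynomial_injective _ (by rw [h, map_zero])
      · obtain ⟨j, -, rfl⟩ := Finset.mem_image.1 hq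
        refine hmap0 _ _ fun h => hw j ?_
        exact Polynomial.toMvPolynomial_injective _ (by rw [h, map_zero])
  have hQF : ∀ q ∈ Q, ∀ v, q.coeff v ∈ F := by
    intro q hq v
    rcases Finset.mem_union.1 hq with hq | hq
    · obtain ⟨J, -, rfl⟩ := Finset.mem_image.1 hq
      exact hmapF _ _ v
    · rcases Finset.mem_union.1 hq with hq | hq
      · obtain ⟨j, -, rfl⟩ := Finset.mem_image.1 hq
        exact hmapF _ _ v
      · obtain ⟨j, -, rfl⟩ := Finset.mem_image.1 hq
        exact hmapF _ _ v
  -- the coefficients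
  let S : Finset ℂ := (Finset.univ.biUnion fun J : Finset (Fin (n + k)) =>
      (X.rest J).support.image fun v => (((X.rest J).coeff v : F) : ℂ)) ∪
    ((Finset.univ.biUnion fun j : Fin k =>
      (u j).support.image fun e => (((u j).coeff e : F) : ℂ)) ∪
    (Finset.univ.biUnion fun j : Fin k =>
      (w j).support.image fun e => (((w j).coeff e : F) : ℂ)))
  have hne : ∀ c : F, c ≠ 0 → (c : ℂ) ≠ 0 := fun c hc h => hc (Subtype.ext h)
  have hS0 : ∀ b ∈ S, b ≠ 0 := by
    intro b hb
    rcases Finset.mem_union.1 hb with hb | hb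
    · obtain ⟨J, -, hJ⟩ := Finset.mem_biUnion.1 hb
      obtain ⟨v, hv, rfl⟩ := Finset.mem_image.1 hJ
      exact hne _ (MvPolynomial.mem_support_iff.1 hv)
    · rcases Finset.mem_union.1 hb with hb | hb
      · obtain ⟨j, -, hj⟩ := Finset.mem_biUnion.1 hb
        obtain ⟨e, he, rfl⟩ := Finset.mem_image.1 hj
        exact hne _ (Polynomial.mem_support_iff.1 he)
      · obtain ⟨j, -, hj⟩ := Finset.mem_biUnion.1 hb
        obtain ⟨e, he, rfl⟩ := Finset.mem_image.1 hj
        exact hne _ (Polynomial.mem_support_iff.1 he)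
  have hSF : ∀ b ∈ S, b ∈ F := by
    intro b hb
    rcases Finset.mem_union.1 hb with hb | hb
    · obtain ⟨J, -, hJ⟩ := Finset.mem_biUnion.1 hb
      obtain ⟨v, hv, rfl⟩ := Finset.mem_image.1 hJ
      exact Subtype.property _
    · rcases Finset.mem_union.1 hb with hb | hb
      · obtain ⟨j, -, hj⟩ := Finset.mem_biUnion.1 hb
        obtain ⟨e, he, rfl⟩ := Finset.mem_image.1 hj
        exact Subtype.property _
      · obtain ⟨j, -, hj⟩ := Finset.mem_biUnion.1 hb
        obtain ⟨e, he, rfl⟩ := Finset.mem_image.1 hj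
        exact Subtype.property _
  obtain ⟨B, K, hloc⟩ := fm_prime (n := n) (F := F) Cardinal.mk_le_aleph0 Q hQ0 hQF S hS0 hSF
  choose Br hBr using fun i => rr_fib (a := num i) (b := den i) (hR i)
  obtain ⟨B₁, hB₁⟩ : ∃ B₁ : ℕ, B₁ = B + 3 + ∑ i, Br i := ⟨_, rfl⟩
  have hBrle : ∀ i, Br i ≤ B₁ := fun i => by
    have := Finset.single_le_sum (f := Br) (fun _ _ => Nat.zero_le _) (Finset.mem_univ i)
    omega
  obtain ⟨c, hc⟩ : ∃ c : ℕ, ∀ i, 2 * (max (num i).natDegree (den i).natDegree) ≤ c :=
    ⟨∑ i, 2 * (max (num i).natDegree (den i).natDegree), fun i => Finset.single_le_sum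
      (f := fun i => 2 * (max (num i).natDegree (den i).natDegree))
      (fun _ _ => Nat.zero_le _) (Finset.mem_univ i)⟩
  have hfib : ∀ p, p.Prime → B₁ < p → ∀ i (β : ZMod p),
      {x | rr p (num i) (den i) x = β}.ncard ≤ c := fun p hp hlt i β =>
    ((hBr i p hp (lt_of_le_of_lt (hBrle i) hlt)).1 β).trans (hc i)
  have hfib0 : ∀ p, p.Prime → B₁ < p → ∀ i,
      {x : ZMod p | ((den i).map (Int.castRingHom (ZMod p))).eval x = 0}.ncard ≤ c :=
    fun p hp hlt i => by
      have h1 := (hBr i p hp (lt_of_le_of_lt (hBrle i) hlt)).2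
      have h2 := hc i
      omega
  have hex : ∀ p : ℕ, ∃ Bd : Set (Fin (n + k + N) → ZMod p), p.Prime → B₁ < p →
      Bd.ncard ≤ K * p ^ (n + k + N - 1) ∧ (n + k + N = 0 → Bd = ∅) ∧
        LocF n (n + k + N) p (E p) (Γ p) F Q S Bd := by
    intro p
    by_cases h : p.Prime ∧ B₁ < p
    · obtain ⟨Bd, hBd⟩ := hloc p h.1 (by omega) (E p) (Γ p) (hcore p h.1 (by omega))
      exact ⟨Bd, fun _ _ => hBd⟩
    · exact ⟨∅, fun h1 h2 => absurd ⟨h1, h2⟩ h⟩
  choose Bd hBd using hex
  obtain ⟨B₂, hB₂⟩ := small_EF (K := K) (B₀ := B₁) hσ (a := num) (b := den) E Bd (small_E E hE)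
    hfib hfib0 (fun p hp hlt => ⟨(hBd p hp hlt).1, (hBd p hp hlt).2.1⟩)
  let EE : ∀ p : ℕ, Set (Fin (n + k + N) → ZMod p) := fun p => EF p σ num den (E p) (Bd p)
  let Bp : ∀ p q : ℕ, Set ((Fin (n + k + N) → ZMod p) × (Fin (n + k + N) → ZMod q)) := fun p q =>
    {uv | ∃ i z, z ∈ Γ p (rr p (num i) (den i) (uv.1 (σ i))) ∧
      z ∈ Γ q (rr q (num i) (den i) (uv.2 (σ i)))}
  have hBp : ∀ p ∈ {p : ℕ | p.Prime}, ∀ q ∈ {p : ℕ | p.Prime}, B₁ + B₂ < p → B₁ + B₂ < q → p ≠ q →
      ((Bp p q).ncard : ℝ) ≤ (n * c : ℝ) * (p : ℝ) ^ (n + k + N) * (q : ℝ) ^ (n + k + N) / q := by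
    intro p hp q hq h1 h2 _
    have hp' : p.Prime := hp
    have hq' : q.Prime := hq
    have : NeZero p := ⟨hp'.ne_zero⟩
    have : NeZero q := ⟨hq'.ne_zero⟩
    have h3 := pair_count (N := n + k + N) (p := p) (q := q) (c := c) σ
      (fun i => rr p (num i) (den i)) (fun i => rr q (num i) (den i)) (Γ p) (Γ q)
      (fun a => (hΓ p a).1) (hΓ2 q) (hfib q hq' (by omega))
    have h4 : ((Bp p q).ncard : ℝ) ≤
        n * ((p : ℝ) ^ (n + k + N) * (c * (q : ℝ) ^ (n + k + N - 1))) := by exact_mod_cast h3
    refine h4.trans ?_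
    have hq0 : (0 : ℝ) < q := by exact_mod_cast hq'.pos
    rcases Nat.eq_zero_or_pos n with hn | hn
    · have h5 : (n : ℝ) = 0 := by exact_mod_cast hn
      rw [h5]
      simp
    · have e : (q : ℝ) ^ (n + k + N) = q * (q : ℝ) ^ (n + k + N - 1) := by
        rw [← pow_succ']
        congr 1
        omega
      rw [e]
      refine le_of_eq ?_
      field_simp
  obtain ⟨B₃, hB₃⟩ : ∃ B₃ : ℕ, B₃ = B₁ + D + (∑ J, ∑ i, X.expo J i) + 1 := ⟨_, rfl⟩
  -- the main statement
  have hmain : ∀ (s : Fin (n + k) → ℤ) (δ : Fin N → ℤ) (t : Fin M → ℕ), (∀ l, 0 < t l) →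
      GM {p : ℕ | p.Prime} EE Bp (n + 1) B₃ (Fin.append s δ) t →
      ∀ lam : Fin q → ℂ, (∀ i, IsIntegral ℤ (lam i)) →
        NoAtypical F D m (periods A num den u w s t (X.member δ t lam)) := by
    intro s δ t ht hGM lam hlam r Z C y hy hyZ hyC W V' hind
    obtain ⟨x, hx, hx1, hx2⟩ := hy
    have h := gen_ineq (n := n) (m := m) (r := r) (w := W.card) hA C.chars V' fun l => ?_
    · exact h
    obtain ⟨f, hf, hf1, hf2⟩ := hGM l
    have hσs : ∀ (p : ℕ) (a : Fin n), red p (Fin.append s δ) (σ a) =
        (s (Fin.castAdd k a) : ZMod p) := by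
      intro p a
      show ((Fin.append s δ (Fin.castAdd N (Fin.castAdd k a)) : ℤ) : ZMod p) = _
      rw [Fin.append_left]
    -- a prime for which no coordinate is exceptional
    obtain ⟨i₀, hi₀⟩ : ∃ i₀, ∀ a : Fin n, y.1 a ∉ Γ (f i₀)
        (rr (f i₀) (num a) (den a) (red (f i₀) (Fin.append s δ) (σ a))) := by
      by_contra hno
      push Not at hno
      choose g hg using hno
      obtain ⟨i, i', hii, hgi⟩ := Fintype.exists_ne_map_eq_of_card_lt g (by simp)
      refine hf2 i i' hii ⟨g i, y.1 (g i), hg i, ?_⟩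
      have h2 := hg i'
      rw [← hgi] at h2
      exact h2
    obtain ⟨p1, p3, p4, p5, p6⟩ := hf1 i₀
    obtain ⟨p, hp⟩ : ∃ p, p = f i₀ := ⟨_, rfl⟩
    rw [← hp] at p1 p3 p4 p5 p6 hi₀
    have p1' : p.Prime := p1
    have : Fact p.Prime := ⟨p1'⟩
    have p6' : ¬ (red p (Fin.append s δ) ∈ Bd p ∨
        (fun i => rr p (num i) (den i) (red p (Fin.append s δ) (σ i))) ∈ E p ∨
        ∃ i, ((den i).map (Int.castRingHom (ZMod p))).eval (red p (Fin.append s δ) (σ i)) = 0) := p6
    rw [not_or, not_or] at p6'
    obtain ⟨p7, p8, p9⟩ := p6'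
    push Not at p9
    have hDp : ¬ p ∣ D := fun h => by
      have := Nat.le_of_dvd hD h
      omega
    have hpB : B₁ < p := by omega
    have hp3 : 3 < p := by omega
    obtain ⟨C', i1, i2, i3, i4, i5, φ₀, hpC, hCC, hL⟩ := (hBd p p1' hpB).2.2
    have hp1 : ‖(p : C')‖ < 1 := by
      rw [hpC]
      exact inv_lt_one_of_one_lt₀ (by exact_mod_cast p1'.one_lt)
    have hp0 : 0 < ‖(p : C')‖ := by
      rw [hpC]
      exact inv_pos.2 (by exact_mod_cast p1'.pos)
    -- the centre
    obtain ⟨s', hs'⟩ : ∃ s' : Fin n → ℤ, ∀ i, (s' i : ZMod p) =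
        rr p (num i) (den i) (red p (Fin.append s δ) (σ i)) :=
      ⟨fun i => ((rr p (num i) (den i) (red p (Fin.append s δ) (σ i))).val : ℤ), fun i => by
        push_cast
        rw [ZMod.natCast_zmod_val]⟩
    have hevZ : ∀ (g : ℤ[X]) (a : Fin n), (g.map (Int.castRingHom (ZMod p))).eval
        (red p (Fin.append s δ) (σ a)) = ((g.eval (s (Fin.castAdd k a)) : ℤ) : ZMod p) := by
      intro g a
      rw [hσs, Polynomial.eval_intCast_map]
      rfl
    have hden : ∀ a : Fin n, ¬ (p : ℤ) ∣ (den a).eval (s (Fin.castAdd k a)) := by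
      intro a hd
      apply p9 a
      rw [hevZ]
      exact (ZMod.intCast_zmod_eq_zero_iff_dvd _ _).2 hd
    have hnum : ∀ a : Fin n, (p : ℤ) ∣ (num a).eval (s (Fin.castAdd k a)) -
        s' a * (den a).eval (s (Fin.castAdd k a)) := by
      intro a
      rw [← ZMod.intCast_zmod_eq_zero_iff_dvd]
      push_cast
      rw [hs', ← hevZ, ← hevZ]
      unfold rr
      rw [mul_assoc, inv_mul_cancel₀ (p9 a), mul_one, sub_self]
    have hprod0 : ∀ j, (∏ l', (t l' : ℂ) ^ A l' j) ≠ 0 := fun j =>
      Finset.prod_ne_zero_iff.2 fun l' _ => zpow_ne_zero _ (by exact_mod_cast (ht l').ne')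
    refine fm_local p1' φ₀ hpC hCC (F := F) (m := m) s' (fun hE' => p8 ?_) t A l
      (ht l).ne' p4 p5 y.1 y.2 (fun j => (∏ l', (t l' : ℂ) ^ A l' j)⁻¹ * y.2 j)
      (fun j => by rw [mul_inv_cancel_left₀ (hprod0 j)]) (fun {ι} _ y' hy' a => ?_)
      ⟨Z.cls, Z.surj, Z.mat, Z.det_pos, Z.cm, Z.isCM⟩ hyZ (fun i => ?_) C.chars C.pt C.ne_zero
      (fun j => ⟨⟨D, hDp, (C.unit j).1⟩, ⟨D, hDp, (C.unit j).2⟩⟩) hyC.2 W V' hind
    · have e : (fun i => rr p (num i) (den i) (red p (Fin.append s δ) (σ i))) =
          fun i => (s' i : ZMod p) := funext fun i => (hs' i).symm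
      rw [e]
      exact hE'
    · obtain ⟨Φ, g1, g2, g3, g4⟩ := hL (Fin.append s δ) p7 y' hy' a
      have hS1 : ∀ b ∈ S, ‖Φ b‖ ≤ 1 := fun b hb => (g3 b hb).le
      refine ⟨Φ, g1, g2, Finset.univ.filter fun i => ¬ ‖Φ (x i)‖ ^ (p - 1) < ‖(p : C')‖, ?_,
        fun i hi => ?_, fun j hj => ?_⟩
      · by_contra hcard
        rw [not_le] at hcard
        obtain ⟨J, hJ1, hJ2⟩ := Finset.exists_subset_card_eq (Nat.succ_le_of_lt hcard)
        have hmem := hx J hJ2
        have key : ∃ i ∈ J, ‖Φ (x i)‖ ^ (p - 1) < ‖(p : C')‖ := by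
          refine one_J (p := p) hp1 hp0 Φ J (X.expo J) (X.expo_eq_zero J)
            (MvPolynomial.aeval (fun i => (δ i : ℂ)) (X.lead J)) ?_
            (MvPolynomial.map (algebraMap F ℂ) (X.rest J)) ?_ ?_ δ t lam
            (fun i => norm_le_one_of_isIntegral Φ (hlam i)) x (∏ l, (t l : ℂ)) ?_ ?_ ?_
          · have h1 := g4 (Ql J) (Finset.mem_union_left _ (Finset.mem_image_of_mem _
              (Finset.mem_univ J)))
            have e : MvPolynomial.eval (fun i => ((Fin.append s δ i : ℤ) : ℂ)) (Ql J) =
                MvPolynomial.aeval (fun i => (δ i : ℂ)) (X.lead J) := by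
              show MvPolynomial.eval _ (MvPolynomial.map _ (MvPolynomial.rename _ _)) = _
              rw [MvPolynomial.eval_map, ← MvPolynomial.aeval_def, MvPolynomial.aeval_rename]
              have e0 : (fun i => ((Fin.append s δ i : ℤ) : ℂ)) ∘ Fin.natAdd (n + k) =
                  fun i => (δ i : ℂ) := by
                funext i
                show ((Fin.append s δ (Fin.natAdd (n + k) i) : ℤ) : ℂ) = _
                rw [Fin.append_right]
              rw [e0]
            rw [e] at h1
            exact h1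
          · intro v hv
            rw [MvPolynomial.coeff_map]
            refine hS1 _ (Finset.mem_union_left _ (Finset.mem_biUnion.2 ⟨J, Finset.mem_univ J,
              Finset.mem_image.2 ⟨v, ?_, rfl⟩⟩))
            exact MvPolynomial.support_map_subset _ _ hv
          · intro i
            rw [MvPolynomial.degreeOf_le_iff]
            intro v hv
            exact (MvPolynomial.monomial_le_degreeOf _ (MvPolynomial.support_map_subset _ _ hv)).trans
              (X.degree_le J i)
          · obtain ⟨c', hc'⟩ : p ∣ ∏ l, t l :=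
              p4.trans (Finset.dvd_prod_of_mem t (Finset.mem_univ l))
            have e : (∏ l, (t l : ℂ)) = ((p * c' : ℕ) : ℂ) := by
              rw [← hc']
              push_cast
              rfl
            rw [e, map_natCast]
            push_cast
            rw [norm_mul]
            refine mul_le_of_le_one_right (norm_nonneg _) ?_
            simpa using IsUltrametricDist.norm_intCast_le_one C' (c' : ℤ)
          · rw [MvPolynomial.eval_map, ← MvPolynomial.aeval_def]
            exact hmem
          · have h1 : ∑ i, X.expo J i ≤ ∑ J, ∑ i, X.expo J i :=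
              Finset.single_le_sum (f := fun J => ∑ i, X.expo J i) (fun _ _ => Nat.zero_le _)
                (Finset.mem_univ J)
            omega
        obtain ⟨i, hi, hi'⟩ := key
        exact (Finset.mem_filter.1 (hJ1 hi)).2 hi'
      · have hi' : ‖Φ (x (Fin.castAdd k i))‖ ^ (p - 1) < ‖(p : C')‖ := by
          by_contra h1
          exact hi (Finset.mem_filter.2 ⟨Finset.mem_univ _, h1⟩)
        exact R_near p1' hp3 hp1 hp0 (num i) (den i) (s (Fin.castAdd k i)) (s' i) (hden i)
          (hnum i) Φ hi' (by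
            have h1 := (hx1 i).2
            rw [← Polynomial.eval_map_algebraMap, ← Polynomial.eval_map_algebraMap] at h1
            exact h1)
      · have hj' : ‖Φ (x (Fin.natAdd n j))‖ ^ (p - 1) < ‖(p : C')‖ := by
          by_contra h1
          exact hj (Finset.mem_filter.2 ⟨Finset.mem_univ _, h1⟩)
        have hj1 : ‖Φ (x (Fin.natAdd n j))‖ < 1 := by
          by_contra h
          push Not at h
          have h2 : (1 : ℝ) ≤ ‖Φ (x (Fin.natAdd n j))‖ ^ (p - 1) := one_le_pow₀ h
          linarith
        have hcoef : ∀ g : F[X], (∀ e ∈ g.support, ((g.coeff e : F) : ℂ) ∈ S) → ∀ e,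
            ‖Φ ((g.map (algebraMap F ℂ)).coeff e)‖ ≤ 1 := by
          intro g hg e
          rw [Polynomial.coeff_map]
          by_cases he : e ∈ g.support
          · exact hS1 _ (hg e he)
          · rw [Polynomial.notMem_support_iff.1 he, map_zero, map_zero, norm_zero]
            exact zero_le_one
        have hev : ∀ g : F[X], MvPolynomial.eval (fun i => ((Fin.append s δ i : ℤ) : ℂ)) (Qu g j) =
            (g.map (algebraMap F ℂ)).eval (s (Fin.natAdd n j) : ℂ) := by
          intro g
          show MvPolynomial.eval _ (MvPolynomial.map _ (Polynomial.toMvPolynomial _ g)) = _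
          rw [MvPolynomial.eval_map, ← MvPolynomial.aeval_def, MvPolynomial.aeval_toMvPolynomial,
            Fin.append_left, Polynomial.eval_map_algebraMap]
        refine U_unit Φ (u := (u j).map (algebraMap F ℂ)) (w := (w j).map (algebraMap F ℂ))
          (hcoef _ fun e he => ?_) (hcoef _ fun e he => ?_) (s (Fin.natAdd n j)) ?_ ?_ hj1 ?_
        · exact Finset.mem_union_right _ (Finset.mem_union_left _
            (Finset.mem_biUnion.2 ⟨j, Finset.mem_univ j, Finset.mem_image.2 ⟨e, he, rfl⟩⟩))
        · exact Finset.mem_union_right _ (Finset.mem_union_right _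
            (Finset.mem_biUnion.2 ⟨j, Finset.mem_univ j, Finset.mem_image.2 ⟨e, he, rfl⟩⟩))
        · rw [← hev]
          exact g4 _ (Finset.mem_union_right _ (Finset.mem_union_left _
            (Finset.mem_image.2 ⟨j, Finset.mem_univ j, rfl⟩)))
        · rw [← hev]
          exact g4 _ (Finset.mem_union_right _ (Finset.mem_union_right _
            (Finset.mem_image.2 ⟨j, Finset.mem_univ j, rfl⟩)))
        · rw [Polynomial.eval_map_algebraMap, Polynomial.eval_map_algebraMap, mul_assoc, (hx2 j).2,
            inv_mul_cancel_left₀ (hprod0 j)]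
    · rw [hs']
      exact hi₀ i
  -- the density
  intro ε hε
  obtain ⟨H₀, hH₀⟩ := count_gm (M := M) (P := {p : ℕ | p.Prime}) (fun p hp => hp) dvg_primes EE Bp
    (κ := 1 / 2) (C := (n * c : ℝ)) (by norm_num) (by norm_num) (by positivity) (B₁ + B₂)
    (fun p hp hlt => hB₂ p hp (by omega)) hBp (n + 1) B₃ hε
  refine ⟨H₀, fun H hH => le_trans ?_ (hH₀ H hH)⟩
  have hfin : {x : (Fin (n + k + N) → ℤ) × (Fin M → ℕ) | (∀ i, |x.1 i| ≤ (H : ℤ)) ∧
      (∀ l, x.2 l + 1 ≤ H) ∧ ¬ GM {p : ℕ | p.Prime} EE Bp (n + 1) B₃ x.1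
        (fun l => x.2 l + 1)}.Finite := by
    refine (Finset.finite_toSet (bx (n + k + N) H ×ˢ bm M H)).subset ?_
    rintro x ⟨h1, h2, -⟩
    exact Finset.mem_coe.2 (Finset.mem_product.2 ⟨mem_bx.2 h1, mem_bm.2 h2⟩)
  refine Nat.cast_le.2 (Set.ncard_le_ncard_of_injOn
    (fun x => (Fin.append x.1 x.2.1, fun l => x.2.2 l - 1)) ?_ ?_ hfin)
  · rintro ⟨s, δ, t⟩ ⟨⟨h1, h2⟩, h3, h4, h5⟩
    have h1' : ∀ l, 0 < t l := h1
    have e : (fun l => t l - 1 + 1) = t := funext fun l => Nat.sub_add_cancel (h1' l)
    refine ⟨fun i => ?_, fun l => ?_, fun hGM => h2 ?_⟩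
    · refine Fin.addCases (fun i => ?_) (fun i => ?_) i
      · show |Fin.append s δ (Fin.castAdd N i)| ≤ (H : ℤ)
        rw [Fin.append_left]
        exact h3 i
      · show |Fin.append s δ (Fin.natAdd (n + k) i)| ≤ (H : ℤ)
        rw [Fin.append_right]
        exact h4 i
    · show t l - 1 + 1 ≤ H
      rw [Nat.sub_add_cancel (h1' l)]
      exact h5 l
    · have h6 : GM {p : ℕ | p.Prime} EE Bp (n + 1) B₃ (Fin.append s δ)
          (fun l => t l - 1 + 1) := hGM
      rw [e] at h6
      exact hmain s δ t h1' h6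
  · rintro ⟨s, δ, t⟩ ⟨⟨h1, -⟩, -⟩ ⟨s', δ', t'⟩ ⟨⟨h1', -⟩, -⟩ hab
    rw [Prod.mk.injEq] at hab
    obtain ⟨ha, hb⟩ := hab
    have ha' : Fin.append s δ = Fin.append s' δ' := ha
    have hb' : (fun l => t l - 1) = fun l => t' l - 1 := hb
    have e1 : s = s' := by
      funext i
      have := congrFun ha' (Fin.castAdd N i)
      rwa [Fin.append_left, Fin.append_left] at this
    have e2 : δ = δ' := by
      funext i
      have := congrFun ha' (Fin.natAdd (n + k) i)
      rwa [Fin.append_right, Fin.append_right] at this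
    have e3 : t = t' := by
      funext l
      have h2 : t l - 1 = t' l - 1 := congrFun hb' l
      have h3 : 0 < t l := h1 l
      have h4 : 0 < t' l := h1' l
      omega
    rw [e1, e2, e3]

end Pool.Agent.Results.MP_eeb1a4_ag.DegeneratingFamilies
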