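import Pool.Agent.H882.FzMix
import Pool.Agent.H882.FzImg
import Pool.Agent.H882.FzNullM
import Pool.Agent.H882.MxRes

/-!
# MP_eeb1a4_ag: the atypical Hodge locus of variations of mixed Hodge structures on subvarieties which
degenerate at a *given* algebraic point whose pure part is generic

**The variation.** Let `R_i = num_i / den_i` (`i ≤ n + k`) be nonconstant rational functions with algebraic
coefficients. On (a finite covering of) the open subset of `ℂ^(n+k)` on which everything is defined
there is the variation of mixed Hodge structures `𝕍` which is the sum of the `H^1` of elliptic curves with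
the `j`-invariants `R_1 (x_1), …, R_n (x_n)` and of the Kummer extensions of `ℤ` by `ℤ(1)` given by the
numbers `t^(A_j) R_(n+j) (x_(n+j))`, `t^(A_j) = t_1^(A_(1,j)) ⋯ t_M^(A_(M,j))`, with natural numbers
`t_1, …, t_M`, for `j ≤ k`. The special subvarieties of a subvariety `S` are the components of the inverse
images of the products `Z × C` of a special subvariety `Z` of `Y(1)^n` and a torsion coset `C` of `G_m^k`
under the period map `S → Y(1)^n × G_m^k` (`Y(1)^n` is identified with `ℂ^n` by `jj = j = E₄³ / Δ`; `periods`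
is the image of the period map), which is finite.

**The families.** Let `X_(t,λ) ⊂ ℂ^(n+k)` be a family of sets of dimension `m` over a field `F ⊂ ℂ`, with
parameters `t ∈ ℕ`, `λ ∈ ℂ^q` (`Family`, `Family.member`), which degenerates for `t = 0` to the union of the
`m`-dimensional coordinate subspaces: for every set `J` of `m + 1` coordinates there is an equation

  `lead_J ∏_(i ∈ J) x_i ^ e_(J,i) + t rest_J (λ, x) = 0`,  `0 ≠ lead_J ∈ F`,

with a polynomial `rest_J` over `F` of degree at most `e_(J,i)` in `x_i`. For example this is true for the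
homothetic images `t λ V` (`λ` a number) of an arbitrary subvariety `V ⊂ ℂ^(n+k)` of dimension `m` in
general position at infinity, that is, such that for each `J` there is an equation of `V` in the `x_i`,
`i ∈ J`, which contains the monomial of maximal exponents (all `V` have this property after a general
projective linear transformation in each coordinate; here `F` is a field of definition of `V`, for
example `F = ℂ`), and for the hypersurfaces `x_1^a_1 ⋯ x_(n+k)^a_(n+k) = t g (λ, x)`.

**Theorem** (`result`). (I) Every residue class `c₀ mod N` of `ℤ^n` contains a residue class `c' mod M`, all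
elements `c` of which have coordinates `c_i ≠ 0, 1728` and satisfy the Galois condition `Separated` below.

(II) Let `c` be a point of `Y(1)^n` with algebraic coordinates `c_i ≠ 0, 1728` which satisfies
`Separated`. There are `n + 1` sets `P_0, …, P_n` of prime numbers, such that the sum of the reciprocals of
the elements of each `P_b` is divergent, and for each `M ≥ 1` a set `N ⊂ ℕ^M` of density zero with the
following properties. Let `R_1, …, R_(n+k)` be *any* rational functions with algebraic coefficients, and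
`s ∈ ℂ^(n+k)` *any* point with algebraic coordinates such that `R_i (s_i) = c_i` for `i ≤ n`, and
`R_(n+j) (s_(n+j)) ≠ 0, ∞` for `j ≤ k`, let `A ∈ ℤ^(M × k)` be *any* generic matrix, `F` *any* subfield of `ℂ`,
and `X` *any* family over `F` as above, of any dimension `m` and with any number `q` of parameters.
(A) There is a number `B` such that the image `Y` of `s + X_(t_1⋯t_M, λ)` under the period map has no
atypical intersection over `F` with the products `Z × C` (`NoAtypical`), `Z` a special subvariety of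
`Y(1)^n`, `C` a torsion coset of `G_m^k` (or, more generally, a coset of an algebraic subgroup by a point
whose coordinates are units away from a given number `D`), for all algebraic integers `λ_i` and all `t`
with the following property: for all `l ≤ M`, `b ≤ n`, the number `t_l` is divisible by an element `p > B`
of `P_b` which does not divide the other `t_(l')`.
(B) There is a number `T` such that the same is true for all `t ∉ N` with `t_l ≥ T` for some `l`.

`NoAtypical F D m Y` means that for each point `y` of `Y ∩ (Z × C)` the sets of coordinates of `y` which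
are algebraically independent over `F` have at most `m + dim (Z × C) - (n + k)` elements, where
`dim C = k - rank L` for the group `L` of the characters which are constant on `C`. We can assume that `F`
is countable, and then a component of the intersection has a point which is generic over the algebraic
closure of `F` (to which `s` and the `λ_i` belong, if `F` contains the algebraic numbers), so that its
dimension is at most `m + dim (Z × C) - (n + k)`. If `S` is an irreducible subvariety of dimension `m` of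
`s + X_(t_1⋯t_M, λ)`, the image of the period map of `S` has dimension `m`, it is not contained in a product
`Z × C` different from `Y(1)^n × G_m^k` (so that this is the quotient `Γ \ 𝒟` of the generic Mumford-Tate
domain of `𝕍` on `S`), and all special subvarieties of `S` are typical: `HL(S, 𝕍^⊗)_atyp` is empty, and Q1
is true for `S` and `𝕍`.

**Generic matrices.** `A` is generic (`Generic`) if for each group `L` of characters of the torus there
is a row `a` of `A` such that for all sets `B` of fewer than `rank L` coordinates there is a character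
`χ ∈ L` which is zero on `B`, with `χ · a ≠ 0`. For example this is true if `A` has more than
`(k - 1) 2^k` rows, any `k` of which are linearly independent (lemma `gen_of_det`), and for `A = (1)` if
`k = 1`; for `k = 0` there is no condition.

**The centre.** The elements of `neighbours ℓ c_k` are the `j`-invariants of the quotients `E_k / C`, where
`E_k` is an elliptic curve over the number field `K = ℚ (c_1, …, c_n)` with `j (E_k) = c_k` and `C` runs through
the `ℓ + 1` subgroups of order `ℓ`. `Separated c` says that there are primes `ℓ_(a,i) ≡ 1 mod 4`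
(`a = 0, …, n`, `i = 1, …, n`) with `ℓ_(a,i) + 1` different neighbours of each `c_k`, and automorphisms `σ_a` of `ℂ`
which fix the `c_k` and the roots of unity of order `ℓ_(a,i)`, such that `σ_b` fixes no `ℓ_(a,i)`-neighbour of
`c_k` if `(b,k) = (a,i)`, and exactly two of them otherwise. By (I) the theorem is true without any
hypothesis for a set of integral points `c` of positive density, which contains an open dense subset of
`ℤ^n` for the congruence topology, and all algebraic `s` with `R_i (s_i) = c_i`. *Moreover all Hodge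
generic points `c` of `Y(1)^n` with algebraic coordinates satisfy the condition by Serre's open image
theorem* (this is not proved here, and it is only used for this remark): if the `E_k` are without
complex multiplication and pairwise not isogenous over the algebraic closure, the image of the
absolute Galois group of the field generated by `K` and all roots of unity in `∏_ℓ ∏_k SL_2 (𝔽_ℓ)` is
everything for each finite set of sufficiently large primes `ℓ` (Serre, Propriétés galoisiennes des
points d'ordre fini des courbes elliptiques, for two curves together with Faltings' isogeny theorem;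
for several curves and primes by the lemmas of Goursat and Ribet). So the theorem holds for all
algebraic points `s` at which the pure part of `𝕍_s` is generic (there is no condition on the extension
classes at `s`: they can be torsion).

**Relation to earlier results.** Our result `MP_eeb1a4_ag.DegeneratingFamilies` is about almost all pairs
`(s, t)`, `s ∈ ℤ^(n+k)`, for given `R_i` over `ℚ` and countable `F`; it says nothing about a given centre,
and its null set depends on everything. `MP_defd1c_ag.FixedCentres` is the case `R_i = T` for the mixed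
Shimura variety itself, `MP_0704bf_ag.FixedCentres` is the pure case `k = 0` (`M = 1`). New here: a given
centre and almost all `t` for the mixed period maps, with sets `P_b` and `N` which depend only on the
pure part `c` of the period of the centre.

**Idea of the proof.** If a prime `p > B` divides `t_l`, but not the other `t_(l')`, then for each embedding
into `ℂ_p` for which finitely many numbers are units at most `m` of the `n + k` coordinates `x_i` of a point
of `X_(t_1⋯t_M, λ)` have absolute value `≥ 1`. For the others `R_i (s_i + x_i) ≡ R_i (s_i)`. So the other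
modular coordinates are near to `c_i`, and the other coordinates of the torus have the valuation
`w A_(l,j)`, `w = v_p (t_l) > 0`. Now the theorem on such points (`fz_mixed`) can be applied. It uses
Chebotarev's theorem for the neighbours of the `c_k`, Kronecker's congruence, canonical lifts, and
embeddings for which algebraically independent coordinates have large absolute values with independent
exponents; see the explanations in `MP_d83ecd_ag.FixedCentres` and `MP_defd1c_ag.FixedCentres`.
-/

set_option autoImplicit false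

namespace Pool.Agent.Results.MP_eeb1a4_ag.FixedCentres

open UpperHalfPlane H294ZP Polynomial

/-- A special subvariety of dimension `r` of `Y(1)^n`: a map `cls` from the coordinates onto `r`
classes (`none` for the constant coordinates), an integral matrix of positive determinant for each
coordinate, and a CM point for each coordinate. -/
structure SpecialVariety (n r : ℕ) where
  cls : Fin n → Option (Fin r)
  surj : ∀ l : Fin r, ∃ i, cls i = some l
  mat : Fin n → Matrix (Fin 2) (Fin 2) ℤ
  det_pos : ∀ i, 0 < (mat i).det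
  cm : Fin n → ℍ
  isCM : ∀ i, IsCM (cm i)

/-- The points of a special subvariety: the constant coordinates are the singular moduli
`j (cm i)`, the other coordinates are `j (g_i z_l)`, where `l` is the class of `i`, `g_i = mat i` and
`z_1, …, z_r` are free parameters in the upper half plane. -/
def SpecialVariety.locus {n r : ℕ} (Z : SpecialVariety n r) : Set (Fin n → ℂ) :=
  {x | ∃ z : Fin r → ℍ, ∀ i, (Z.cls i = none → x i = jj (Z.cm i)) ∧
    ∀ l, Z.cls i = some l → ∃ w : ℍ,
      (w : ℂ) * (Z.mat i 1 0 * z l + Z.mat i 1 1) = Z.mat i 0 0 * z l + Z.mat i 0 1 ∧ x i = jj w}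

/-- A coset of an algebraic subgroup of `G_m^k`: `chars` is a group of characters which are constant on
the coset, and `pt` is a point of the coset whose coordinates are units away from `D`. For points of
finite order this is true for all `D`. -/
structure Coset (D k : ℕ) where
  chars : AddSubgroup (Fin k → ℤ)
  pt : Fin k → ℂ
  ne_zero : ∀ j, pt j ≠ 0
  unit : ∀ j, IsIntegral ℤ ((D : ℂ) * pt j) ∧ IsIntegral ℤ ((D : ℂ) * (pt j)⁻¹)

/-- The points of a coset. Its dimension is `k - rank chars`. -/
def Coset.locus {D k : ℕ} (C : Coset D k) : Set (Fin k → ℂ) :=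
  {z | (∀ j, z j ≠ 0) ∧ ∀ χ ∈ C.chars, ∏ j, z j ^ χ j = ∏ j, C.pt j ^ χ j}

/-- For each special subvariety `Z` of dimension `r`, each coset `C` (of dimension
`k - rank C.chars`), and each point of `X ∩ (Z × C)`: families of coordinates which are algebraically
independent over `F` have at most `m + dim (Z × C) - (n + k)` elements. -/
def NoAtypical {n k : ℕ} (F : Subfield ℂ) (D m : ℕ) (X : Set ((Fin n → ℂ) × (Fin k → ℂ))) : Prop :=
  ∀ (r : ℕ) (Z : SpecialVariety n r) (C : Coset D k), ∀ x ∈ X, x.1 ∈ Z.locus → x.2 ∈ C.locus →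
    ∀ (W : Finset (Fin n)) (V : Finset (Fin k)),
      AlgebraicIndependent F (Sum.elim (fun i : W => x.1 i) (fun j : V => x.2 j)) →
      n + W.card + V.card + Module.finrank ℤ C.chars ≤ m + r

/-- A family of subsets of `ℂ^n` of dimension `m` over the field `F`, with parameters `t ∈ ℕ`, `λ ∈ ℂ^q`,
which degenerates for `t = 0` to the union of the coordinate subspaces of dimension `m`: for each set
`J` of `m + 1` coordinates there is an equation
`lead_J ∏_(i ∈ J) x_i ^ (expo_J i) + t rest_J (λ, x) = 0`, `0 ≠ lead_J ∈ F`, with a polynomial `rest_J`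
over `F` of degree at most `expo_J i` in `x_i`. -/
structure Family (F : Subfield ℂ) (n q m : ℕ) where
  expo : Finset (Fin n) → Fin n → ℕ
  lead : Finset (Fin n) → F
  rest : Finset (Fin n) → MvPolynomial (Fin q ⊕ Fin n) F
  expo_eq_zero : ∀ J i, i ∉ J → expo J i = 0
  lead_ne_zero : ∀ J, lead J ≠ 0
  degree_le : ∀ J i, (rest J).degreeOf (Sum.inr i) ≤ expo J i

/-- The member of the family with the parameters `t, λ`. -/
def Family.member {F : Subfield ℂ} {n q m : ℕ} (X : Family F n q m) (t : ℕ) (lam : Fin q → ℂ) :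
    Set (Fin n → ℂ) :=
  {x | ∀ J : Finset (Fin n), J.card = m + 1 →
    (X.lead J : ℂ) * ∏ i, x i ^ X.expo J i +
      (t : ℂ) * MvPolynomial.aeval (Sum.elim lam x) (X.rest J) = 0}

/-- The image of the subset `s + X` of `ℂ^(n+k)` under the period map: the points with the coordinates
`R_i (s_i + x_i)`, `i ≤ n`, and `t_1^(A_(1,j)) ⋯ t_M^(A_(M,j)) R_(n+j) (s_(n+j) + x_(n+j))`, `j ≤ k`,
`R_i = num_i / den_i`. -/
def periods {n k M : ℕ} (A : Fin M → Fin k → ℤ) (num den : Fin (n + k) → ℂ[X])
    (s : Fin (n + k) → ℂ) (t : Fin M → ℕ) (X : Set (Fin (n + k) → ℂ)) :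
    Set ((Fin n → ℂ) × (Fin k → ℂ)) :=
  {y | ∃ x ∈ X, (∀ i, (den i).eval (s i + x i) ≠ 0) ∧
    (∀ i : Fin n, y.1 i * (den (Fin.castAdd k i)).eval (s (Fin.castAdd k i) + x (Fin.castAdd k i)) =
      (num (Fin.castAdd k i)).eval (s (Fin.castAdd k i) + x (Fin.castAdd k i))) ∧
    ∀ j : Fin k, y.2 j * (den (Fin.natAdd n j)).eval (s (Fin.natAdd n j) + x (Fin.natAdd n j)) =
      (∏ l, (t l : ℂ) ^ A l j) *
        (num (Fin.natAdd n j)).eval (s (Fin.natAdd n j) + x (Fin.natAdd n j))}

/-- For each group `L` of characters there is a row of `A` such that for all sets `B` of fewer than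
`rank L` coordinates a character in `L` is zero on `B` and not orthogonal to this row. -/
def Generic {M k : ℕ} (A : Fin M → Fin k → ℤ) : Prop :=
  ∀ L : AddSubgroup (Fin k → ℤ), ∃ l, ∀ B : Finset (Fin k), B.card < Module.finrank ℤ L →
    ∃ χ ∈ L, (∀ j ∈ B, χ j = 0) ∧ ∑ j, χ j * A l j ≠ 0

/-- The numbers `j (g τ)`, where `j (τ) = s` and `g` is an integral matrix of determinant `ℓ`: the
`j`-invariants of the quotients by subgroups of order `ℓ` of an elliptic curve with `j`-invariant `s`. -/
def neighbours (ℓ : ℕ) (s : ℂ) : Set ℂ :=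
  {y | ∃ (g : Matrix (Fin 2) (Fin 2) ℤ) (τ w : ℍ), g.det = ℓ ∧
    (w : ℂ) * (g 1 0 * τ + g 1 1) = g 0 0 * τ + g 0 1 ∧ jj τ = s ∧ jj w = y}

/-- The Galois condition for the centre: there are primes `ℓ_(a,i) ≡ 1 mod 4` (`a = 0, …, n`) with
`ℓ_(a,i) + 1` neighbours of each `s_k`, and automorphisms `σ_a` of `ℂ` which fix the `s_k` and the roots of unity
of order `ℓ_(a,i)`, such that `σ_b` fixes no `ℓ_(a,i)`-neighbour of `s_k` if `(b, k) = (a, i)`, and exactly two of
them otherwise. -/
def Separated {n : ℕ} (s : Fin n → ℂ) : Prop :=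
  ∃ (ℓ : Fin (n + 1) → Fin n → ℕ) (σ : Fin (n + 1) → ℂ ≃+* ℂ),
    (∀ a k, σ a (s k) = s k) ∧
    (∀ a i, (ℓ a i).Prime ∧ ℓ a i % 4 = 1 ∧ σ a (Complex.exp (2 * Real.pi * Complex.I / ℓ a i)) =
      Complex.exp (2 * Real.pi * Complex.I / ℓ a i)) ∧
    (∀ a i k, (neighbours (ℓ a i) (s k)).ncard = ℓ a i + 1) ∧
    (∀ a i, ∀ y ∈ neighbours (ℓ a i) (s i), σ a y ≠ y) ∧
    ∀ a i b k, (b, k) ≠ (a, i) → {y | y ∈ neighbours (ℓ a i) (s k) ∧ σ b y = y}.ncard = 2

/-- `N` has density zero in `ℕ^M`. -/
def DensityZero {M : ℕ} (N : Set (Fin M → ℕ)) : Prop :=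
  ∀ ε : ℝ, 0 < ε → ∃ H₀ : ℕ, ∀ H : ℕ, H₀ ≤ H →
    ({t : Fin M → ℕ | t ∈ N ∧ ∀ l, t l ≤ H}.ncard : ℝ) ≤ ε * (H : ℝ) ^ M

open Pool.Agent.H882 Pool.Agent.Y226

theorem norm_scale {M k p w u : ℕ} (hp : p.Prime) {C : Type} [NormedField C] [IsUltrametricDist C]
    [CharZero C] (hpC : ‖(p : C)‖ = (p : ℝ)⁻¹) (t : Fin M → ℕ) (A : Fin M → Fin k → ℤ) (l : Fin M)
    (hu : ¬ p ∣ u) (hwu : t l = p ^ w * u) (hpl' : ∀ l', l' ≠ l → ¬ p ∣ t l') (j : Fin k) :
    ‖∏ l', ((t l' : ℕ) : C) ^ A l' j‖ = (p : ℝ) ^ (-((w : ℤ) * A l j)) := by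
  have hp1 : ‖(p : C)‖ < 1 := by
    rw [hpC]
    exact inv_lt_one_of_one_lt₀ (by exact_mod_cast hp.one_lt)
  have hunitN : ∀ a : ℕ, ¬ p ∣ a → ‖(a : C)‖ = 1 := by
    intro a ha
    have h1 := norm_unit (C := C) hp hp1 (a := (a : ℤ)) (by exact_mod_cast ha)
    simpa using h1
  have htl : ‖(t l : C)‖ = ((p : ℝ) ^ w)⁻¹ := by
    rw [hwu, Nat.cast_mul, Nat.cast_pow, norm_mul, norm_pow, hunitN u hu, mul_one, hpC, inv_pow]
  rw [norm_prod, Finset.prod_eq_single l]
  · rw [norm_zpow, htl, ← zpow_natCast, ← zpow_neg, ← zpow_mul, neg_mul]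
  · intro l' _ hl'
    rw [norm_zpow, hunitN _ (hpl' l' hl'), one_zpow]
  · intro h
    exact absurd (Finset.mem_univ l) h

theorem main (n : ℕ) (c : Fin n → ℂ) (hc : ∀ i, IsAlgebraic ℚ (c i) ∧ c i ≠ 0 ∧ c i ≠ 1728)
    (hsep : Separated c) :
    ∃ P : Fin (n + 1) → Set ℕ,
      (∀ b, (∀ p ∈ P b, p.Prime) ∧ ¬ Summable ((P b).indicator fun p : ℕ => (1 : ℝ) / p)) ∧
      ∀ M : ℕ, 0 < M → ∃ N : Set (Fin M → ℕ), DensityZero N ∧
        ∀ (k : ℕ) (A : Fin M → Fin k → ℤ), Generic A →
        ∀ (num den : Fin (n + k) → ℂ[X]) (s : Fin (n + k) → ℂ), (∀ i, IsAlgebraic ℚ (s i)) →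
        (∀ i e, IsAlgebraic ℚ ((num i).coeff e) ∧ IsAlgebraic ℚ ((den i).coeff e)) →
        (∀ i, (den i).eval (s i) ≠ 0) →
        (∀ i : Fin n, (num (Fin.castAdd k i)).eval (s (Fin.castAdd k i)) =
          c i * (den (Fin.castAdd k i)).eval (s (Fin.castAdd k i))) →
        (∀ j : Fin k, (num (Fin.natAdd n j)).eval (s (Fin.natAdd n j)) ≠ 0) →
        ∀ (F : Subfield ℂ) (D m q : ℕ) (X : Family F (n + k) q m), 0 < D →
          (∃ B : ℕ, ∀ t : Fin M → ℕ, (∀ l, 0 < t l) →
            (∀ l b, ∃ p ∈ P b, B < p ∧ p ∣ t l ∧ ∀ l', l' ≠ l → ¬ p ∣ t l') →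
            ∀ lam : Fin q → ℂ, (∀ i, IsIntegral ℤ (lam i)) →
              NoAtypical F D m (periods A num den s t (X.member (∏ l, t l) lam))) ∧
          ∃ T : ℕ, ∀ t : Fin M → ℕ, (∀ l, 0 < t l) → (∃ l, T ≤ t l) → t ∉ N →
            ∀ lam : Fin q → ℂ, (∀ i, IsIntegral ℤ (lam i)) →
              NoAtypical F D m (periods A num den s t (X.member (∏ l, t l) lam)) := by
  classical
  obtain ⟨ℓ, σ, hsep'⟩ := hsep
  obtain ⟨c', hc'⟩ : ∃ c' : Fin n → QA, ∀ i, (c' i : ℂ) = c i :=
    ⟨fun i => ⟨c i, mem_QA.2 (hc i).1⟩, fun _ => rfl⟩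
  obtain rfl : c = fun i => (c' i : ℂ) := funext fun i => (hc' i).symm
  obtain ⟨P, hP, hPd, hmix⟩ := fz_mixed (c := c') (fun i =>
    ⟨fun h => (hc i).2.1 (congrArg (fun z : QA => (z : ℂ)) h),
      fun h => (hc i).2.2 (congrArg (fun z : QA => (z : ℂ)) h)⟩)
    (ℓ := ℓ) (σ := σ) hsep'
  refine ⟨P, fun a => ⟨hP a, (hPd a).not_summable⟩, fun M hM => ?_⟩
  obtain ⟨N, hN, hNT⟩ := fz_nullM hM P hP hPd
  refine ⟨N, hN, fun k A hA num den s hs hnd hden hnum hnum2 F D m q X hD => ?_⟩
  have hmain : ∃ B : ℕ, ∀ t : Fin M → ℕ, (∀ l, 0 < t l) →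
      (∀ l b, ∃ p ∈ P b, B < p ∧ p ∣ t l ∧ ∀ l', l' ≠ l → ¬ p ∣ t l') →
      ∀ lam : Fin q → ℂ, (∀ i, IsIntegral ℤ (lam i)) →
        NoAtypical F D m (periods A num den s t (X.member (∏ l, t l) lam)) := ?_
  · refine ⟨hmain, ?_⟩
    obtain ⟨B, hB⟩ := hmain
    obtain ⟨T, hT⟩ := hNT B
    exact ⟨T, fun t ht0 htT htN lam hlam => hB t ht0 (hT t ht0 htT htN) lam hlam⟩
  obtain ⟨S, hS0, hSF, B₁, hB₁⟩ := fam_bad (m := m) X.expo X.lead X.rest X.expo_eq_zero
    X.lead_ne_zero X.degree_le
  obtain ⟨B₂, hB₂⟩ := hmix F S hS0 hSF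
  -- the algebraic numbers
  let T : Finset ℂ := (Finset.univ.image fun i => (c' i : ℂ)) ∪
    Finset.univ.biUnion fun i : Fin (n + k) =>
    ({s i, (num i).eval (s i), (den i).eval (s i)} : Finset ℂ) ∪
      ((num i).support.image (num i).coeff ∪ (den i).support.image (den i).coeff)
  have heval : ∀ f : ℂ[X], (∀ k, IsAlgebraic ℚ (f.coeff k)) → ∀ i, f.eval (s i) ∈ QA := by
    intro f hf i
    rw [Polynomial.eval_eq_sum, Polynomial.sum]
    exact sum_mem fun k _ => mul_mem (mem_QA.2 (hf k)) (pow_mem (mem_QA.2 (hs i)) k)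
  have hTQ : ∀ z ∈ T, z ∈ QA := by
    intro z hz
    rcases Finset.mem_union.1 hz with hz | hz
    · obtain ⟨i, -, rfl⟩ := Finset.mem_image.1 hz
      exact (c' i).2
    obtain ⟨i, -, hi⟩ := Finset.mem_biUnion.1 hz
    rcases Finset.mem_union.1 hi with hi | hi
    · rw [Finset.mem_insert, Finset.mem_insert, Finset.mem_singleton] at hi
      rcases hi with rfl | rfl | rfl
      · exact mem_QA.2 (hs i)
      · exact heval _ (fun e => (hnd i e).1) i
      · exact heval _ (fun e => (hnd i e).2) i
    · rcases Finset.mem_union.1 hi with hi | hi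
      · obtain ⟨e, -, rfl⟩ := Finset.mem_image.1 hi
        exact mem_QA.2 (hnd i e).1
      · obtain ⟨e, -, rfl⟩ := Finset.mem_image.1 hi
        exact mem_QA.2 (hnd i e).2
  obtain ⟨B₃, hB₃⟩ := int_large_all T hTQ
  refine ⟨B₁ + B₂ + B₃ + D, fun t ht0 ht lam hlam => ?_⟩
  intro r Z C y hy hyZ hyC W V hind
  obtain ⟨x, hx, -, hx1, hx2⟩ := hy
  refine gen_ineq (n := n) (m := m) (r := r) (w := W.card) hA C.chars V fun l => ?_
  choose g hgP hgB hgt hgt' using ht l
  have hw : ∀ b, ∃ w u : ℕ, ¬ g b ∣ u ∧ t l = g b ^ w * u ∧ w ≠ 0 := by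
    intro b
    obtain ⟨w, u, hu, hwu⟩ := Nat.exists_eq_pow_mul_and_not_dvd (ht0 l).ne' (g b)
      (hP b (g b) (hgP b)).ne_one
    refine ⟨w, u, hu, hwu, ?_⟩
    rintro rfl
    rw [pow_zero, one_mul] at hwu
    have := hgt b
    rw [hwu] at this
    exact hu this
  choose w u hu hwu hw0 using hw
  have hDp : ∀ b, ¬ g b ∣ D := fun b h => by
    have h1 := Nat.le_of_dvd hD h
    have h2 := hgB b
    omega
  have hfar : ∀ b, FarMx S (g b) m c' y.1 y.2 (fun j => (w b : ℤ) * A l j) := by
    intro b C' _ _ _ Φ hpC hS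
    have p1 := hP b (g b) (hgP b)
    have hp1 : ‖((g b : ℕ) : C')‖ < 1 := by
      rw [hpC]
      exact inv_lt_one_of_one_lt₀ (by exact_mod_cast p1.one_lt)
    obtain ⟨Bad, hBad1, hBad2⟩ := hB₁ (g b) p1 (by have := hgB b; omega) C' Φ hpC hS (∏ l, t l)
      ((hgt b).trans (Finset.dvd_prod_of_mem t (Finset.mem_univ l))) lam hlam x hx
    have hTi : ∀ z ∈ T, ‖Φ z‖ ≤ 1 ∧ (z ≠ 0 → ‖Φ z‖ = 1) :=
      hB₃ (g b) p1 (by have := hgB b; omega) C' Φ hp1
    have hmem : ∀ i z, z ∈ (({s i, (num i).eval (s i), (den i).eval (s i)} : Finset ℂ) ∪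
        ((num i).support.image (num i).coeff ∪ (den i).support.image (den i).coeff)) → z ∈ T :=
      fun i z hz => Finset.mem_union_right _ (Finset.mem_biUnion.2 ⟨i, Finset.mem_univ i, hz⟩)
    have m1 : ∀ i, s i ∈ T := fun i => hmem i _ (Finset.mem_union_left _ (by simp))
    have m2 : ∀ i, (num i).eval (s i) ∈ T := fun i =>
      hmem i _ (Finset.mem_union_left _ (by simp))
    have m3 : ∀ i, (den i).eval (s i) ∈ T := fun i =>
      hmem i _ (Finset.mem_union_left _ (by simp))
    have m4 : ∀ i, ∀ e ∈ (num i).support, (num i).coeff e ∈ T := fun i e he =>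
      hmem i _ (Finset.mem_union_right _ (Finset.mem_union_left _
        (Finset.mem_image_of_mem _ he)))
    have m5 : ∀ i, ∀ e ∈ (den i).support, (den i).coeff e ∈ T := fun i e he =>
      hmem i _ (Finset.mem_union_right _ (Finset.mem_union_right _
        (Finset.mem_image_of_mem _ he)))
    have hcard := card_add (n := n) (k := k) fun i => i ∈ Bad
    rw [Finset.filter_mem_eq_inter, Finset.univ_inter] at hcard
    refine ⟨Finset.univ.filter fun i => Fin.castAdd k i ∈ Bad,
      Finset.univ.filter fun j => Fin.natAdd n j ∈ Bad, by rw [← hcard]; exact hBad1,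
      fun i hi => ?_, fun j hj => ?_⟩
    · have h3 : ‖Φ (x (Fin.castAdd k i))‖ < 1 :=
        hBad2 _ fun h => hi (Finset.mem_filter.2 ⟨Finset.mem_univ i, h⟩)
      exact img_near Φ _ _ (fun e he => (hTi _ (m4 _ e he)).1) (fun e he => (hTi _ (m5 _ e he)).1)
        (hTi _ (m1 _)).1 h3 (hTi _ (Finset.mem_union_left _ (Finset.mem_image_of_mem _
          (Finset.mem_univ i)))).1 (hnum i) ((hTi _ (m3 _)).2 (hden _)) (hx1 i)
    · have h3 : ‖Φ (x (Fin.natAdd n j))‖ < 1 :=
        hBad2 _ fun h => hj (Finset.mem_filter.2 ⟨Finset.mem_univ j, h⟩)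
      have h4 := (poly_nr Φ (num (Fin.natAdd n j)) (fun e he => (hTi _ (m4 _ e he)).1)
        (hTi _ (m1 _)).1 h3).norm_eq ((hTi _ (m2 _)).2 (hnum2 j))
      have h5 := (poly_nr Φ (den (Fin.natAdd n j)) (fun e he => (hTi _ (m5 _ e he)).1)
        (hTi _ (m1 _)).1 h3).norm_eq ((hTi _ (m3 _)).2 (hden _))
      have h6 : Φ (∏ l', (t l' : ℂ) ^ A l' j) = ∏ l', ((t l' : ℕ) : C') ^ A l' j := by
        rw [map_prod]
        exact Finset.prod_congr rfl fun l' _ => by rw [map_zpow₀, map_natCast]
      have h7 := congrArg (fun z => ‖Φ z‖) (hx2 j)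
      simp only [map_mul, norm_mul, h4, h5, mul_one] at h7
      rw [h7, h6]
      exact norm_scale p1 hpC t A l (hu b) (hwu b) (hgt' b) j
  obtain ⟨b, Bs, c1, c2, c3⟩ := hB₂ g (fun b => ⟨hgP b, by have := hgB b; omega⟩) k m y.1 y.2
    (fun b j => (w b : ℤ) * A l j) hfar r
    ⟨Z.cls, Z.surj, Z.mat, Z.det_pos, Z.cm, Z.isCM⟩ hyZ C.chars C.pt C.ne_zero
    (fun b j => ⟨⟨D, hDp b, (C.unit j).1⟩, ⟨D, hDp b, (C.unit j).2⟩⟩) hyC.2 W V hind
  refine ⟨Bs, c1, c2, fun χ hχ hχ0 => ?_⟩
  have h1 := c3 χ hχ hχ0
  have h2 : (w b : ℤ) * ∑ j, χ j * A l j = 0 := by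
    rw [← h1, Finset.mul_sum]
    exact Finset.sum_congr rfl fun j _ => by ring
  exact (mul_eq_zero.1 h2).resolve_left (by exact_mod_cast hw0 b)

/-- The theorem. -/
theorem result (n : ℕ) :
    (∀ (N : ℕ) (c₀ : Fin n → ℤ), 0 < N → ∃ (M : ℕ) (c' : Fin n → ℤ), 0 < M ∧ N ∣ M ∧
      (∀ i, (N : ℤ) ∣ c' i - c₀ i) ∧ ∀ c : Fin n → ℤ, (∀ i, (M : ℤ) ∣ c i - c' i) →
        (∀ i, c i ≠ 0 ∧ c i ≠ 1728) ∧ Separated fun i => (c i : ℂ)) ∧
    ∀ c : Fin n → ℂ, (∀ i, IsAlgebraic ℚ (c i) ∧ c i ≠ 0 ∧ c i ≠ 1728) → Separated c →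
    ∃ P : Fin (n + 1) → Set ℕ,
      (∀ b, (∀ p ∈ P b, p.Prime) ∧ ¬ Summable ((P b).indicator fun p : ℕ => (1 : ℝ) / p)) ∧
      ∀ M : ℕ, 0 < M → ∃ N : Set (Fin M → ℕ), DensityZero N ∧
        ∀ (k : ℕ) (A : Fin M → Fin k → ℤ), Generic A →
        ∀ (num den : Fin (n + k) → ℂ[X]) (s : Fin (n + k) → ℂ), (∀ i, IsAlgebraic ℚ (s i)) →
        (∀ i e, IsAlgebraic ℚ ((num i).coeff e) ∧ IsAlgebraic ℚ ((den i).coeff e)) →
        (∀ i, (den i).eval (s i) ≠ 0) →
        (∀ i : Fin n, (num (Fin.castAdd k i)).eval (s (Fin.castAdd k i)) =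
          c i * (den (Fin.castAdd k i)).eval (s (Fin.castAdd k i))) →
        (∀ j : Fin k, (num (Fin.natAdd n j)).eval (s (Fin.natAdd n j)) ≠ 0) →
        ∀ (F : Subfield ℂ) (D m q : ℕ) (X : Family F (n + k) q m), 0 < D →
          (∃ B : ℕ, ∀ t : Fin M → ℕ, (∀ l, 0 < t l) →
            (∀ l b, ∃ p ∈ P b, B < p ∧ p ∣ t l ∧ ∀ l', l' ≠ l → ¬ p ∣ t l') →
            ∀ lam : Fin q → ℂ, (∀ i, IsIntegral ℤ (lam i)) →
              NoAtypical F D m (periods A num den s t (X.member (∏ l, t l) lam))) ∧
          ∃ T : ℕ, ∀ t : Fin M → ℕ, (∀ l, 0 < t l) → (∃ l, T ≤ t l) → t ∉ N →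
            ∀ lam : Fin q → ℂ, (∀ i, IsIntegral ℤ (lam i)) →
              NoAtypical F D m (periods A num den s t (X.member (∏ l, t l) lam)) := by
  refine ⟨?_, fun c hc hsep => main n c hc hsep⟩
  intro N c₀ hN
  obtain ⟨M, c, hM, hNM, hc, h⟩ := dense_sep n N hN c₀
  refine ⟨M, c, hM, hNM, hc, fun s hs => ?_⟩
  obtain ⟨h0, ℓ, σ, hsep⟩ := h s hs
  exact ⟨h0, ℓ, σ, hsep⟩

end Pool.Agent.Results.MP_eeb1a4_ag.FixedCentres
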